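import Pool.Agent.MP_807c24_nt.Z34.Basic

/-! Simple fractions with double poles, linearity of the functional, cancellation of poles. -/

namespace Pool.Agent.MP_807c24_nt.Z34

open Finset Polynomial
open Pool.Agent.MP_807c24_nt.Z23 (Hh Dp Np rg Dp_monic Dp_natDegree)

namespace AlgP

theorem Dp_eval (T : Finset ℕ) (j : ℕ) : (Dp T).eval (-(j : ℚ)) = ∏ i ∈ T, ((i : ℚ) - j) := by
  rw [Dp, eval_prod]
  exact prod_congr rfl fun i _ => by simp [neg_add_eq_sub]

theorem Dp_ne {T : Finset ℕ} {j : ℕ} (h : j ∉ T) : (Dp T).eval (-(j : ℚ)) ≠ 0 := by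
  rw [Dp_eval]
  exact prod_ne_zero_iff.2 fun i hi => sub_ne_zero.2 fun g => h (Nat.cast_inj.1 g ▸ hi)

theorem Dp_zero {T : Finset ℕ} {j : ℕ} (h : j ∈ T) : (Dp T).eval (-(j : ℚ)) = 0 := by
  rw [Dp_eval]
  exact prod_eq_zero h (sub_self _)

theorem dvd_Dp {T : Finset ℕ} {j : ℕ} (h : j ∈ T) : X + C (j : ℚ) ∣ Dp T :=
  dvd_prod_of_mem (fun j : ℕ => X + C (j : ℚ)) h

theorem sq_dvd {G : ℚ[X]} {c : ℚ} (h0 : G.eval (-c) = 0) (h1 : G.derivative.eval (-c) = 0) :
    (X + C c) ^ 2 ∣ G := by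
  have e : (X + C c : ℚ[X]) = X - C (-c) := by rw [C_neg, sub_neg_eq_add]
  obtain ⟨G1, rfl⟩ : (X - C (-c)) ∣ G := dvd_iff_isRoot.2 h0
  have h2 : G1.eval (-c) = 0 := by simpa [derivative_mul] using h1
  rw [e, sq]
  exact mul_dvd_mul_left _ (dvd_iff_isRoot.2 h2)

theorem pf1 (S : Finset ℕ) (N : ℚ[X]) (h : N.natDegree + 2 ≤ 2 * S.card) :
    N = ∑ j ∈ S, (C (ra S N j) + C (rc S N j) * (X + C (j : ℚ))) * Dp (S.erase j) ^ 2 := by
  have hd : Dp S ^ 2 ∣ N -
      ∑ j ∈ S, (C (ra S N j) + C (rc S N j) * (X + C (j : ℚ))) * Dp (S.erase j) ^ 2 := by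
    rw [Dp, ← prod_pow]
    refine prod_dvd_of_coprime (fun i _ j _ hij => ?_) fun j hj => ?_
    · have h1 : IsCoprime (X - C (-(i : ℚ))) (X - C (-(j : ℚ))) :=
        pairwise_coprime_X_sub_C (s := fun i : ℕ => -(i : ℚ))
          (fun a b hab => by simpa using hab) hij
      rw [C_neg, C_neg, sub_neg_eq_add, sub_neg_eq_add] at h1
      exact h1.pow
    · rw [← add_sum_erase S _ hj, ← sub_sub]
      refine dvd_sub (sq_dvd ?_ ?_) (dvd_sum fun i hi => Dvd.dvd.mul_left
        (pow_dvd_pow_of_dvd (dvd_Dp ?_) 2) _)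
      · have h1 := Dp_ne (notMem_erase j S)
        simp only [eval_sub, eval_mul, eval_add, eval_C, eval_X, eval_pow, ra]
        field_simp
        ring
      · have h1 := Dp_ne (notMem_erase j S)
        simp only [derivative_sub, derivative_mul, derivative_add, derivative_C, derivative_X,
          derivative_sq, eval_sub, eval_mul, eval_add, eval_C, eval_X, eval_pow, eval_zero,
          eval_one, ra, rc]
        field_simp
        ring
      · exact mem_erase.2 ⟨(mem_erase.1 hi).1.symm, hj⟩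
  refine sub_eq_zero.1 (eq_zero_of_dvd_of_natDegree_lt hd ?_)
  rw [natDegree_pow, Dp_natDegree]
  refine (natDegree_sub_le_of_le (n := 2 * S.card - 1) (m := 2 * S.card - 1) (by omega)
    (natDegree_sum_le_of_forall_le _ _ fun j hj => ?_)).trans_lt (by omega)
  refine natDegree_mul_le.trans ?_
  have h1 : (C (ra S N j) + C (rc S N j) * (X + C (j : ℚ))).natDegree ≤ 1 := by
    compute_degree
  rw [natDegree_pow, Dp_natDegree, card_erase_of_mem hj]
  omega

theorem ra_add (S : Finset ℕ) (N N' : ℚ[X]) (j : ℕ) : ra S (N + N') j = ra S N j + ra S N' j := by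
  simp only [ra, eval_add]
  ring

theorem rc_add (S : Finset ℕ) (N N' : ℚ[X]) (j : ℕ) : rc S (N + N') j = rc S N j + rc S N' j := by
  simp only [rc, derivative_add, eval_add]
  ring

theorem ra_C_mul (S : Finset ℕ) (c : ℚ) (N : ℚ[X]) (j : ℕ) : ra S (C c * N) j = c * ra S N j := by
  simp only [ra, eval_mul, eval_C]
  ring

theorem rc_C_mul (S : Finset ℕ) (c : ℚ) (N : ℚ[X]) (j : ℕ) : rc S (C c * N) j = c * rc S N j := by
  simp only [rc, derivative_C_mul, eval_mul, eval_C]
  ring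

end AlgP

open AlgP

theorem pf : PfStmt := fun S N h => by
  refine ⟨pf1 S N h, ?_⟩
  have h1 := congrArg (fun P : ℚ[X] => P.coeff (2 * S.card - 1)) (pf1 S N h)
  simp only [finsetSum_coeff] at h1
  rw [coeff_eq_zero_of_natDegree_lt (by omega)] at h1
  rw [h1]
  refine sum_congr rfl fun j hj => ?_
  have hc : 1 ≤ S.card := by omega
  have h2 : (Dp (S.erase j) ^ 2).natDegree = 2 * S.card - 2 := by
    rw [natDegree_pow, Dp_natDegree, card_erase_of_mem hj]
    omega
  have h3 : ((X + C (j : ℚ)) * Dp (S.erase j) ^ 2).Monic :=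
    (monic_X_add_C _).mul ((Dp_monic _).pow 2)
  have h4 : ((X + C (j : ℚ)) * Dp (S.erase j) ^ 2).natDegree = 2 * S.card - 1 := by
    rw [(monic_X_add_C _).natDegree_mul ((Dp_monic _).pow 2), h2, natDegree_X_add_C]
    omega
  rw [add_mul, mul_assoc, coeff_add, coeff_C_mul, coeff_C_mul,
    coeff_eq_zero_of_natDegree_lt (by omega), ← h4, h3.coeff_natDegree]
  ring

theorem Mu_zero (a b x : ℤ) (S : Finset ℕ) : Mu a b x S 0 = 0 := by
  simp [Mu, ra, rc]

theorem Mu_add (a b x : ℤ) (S : Finset ℕ) (N N' : ℚ[X]) :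
    Mu a b x S (N + N') = Mu a b x S N + Mu a b x S N' := by
  simp only [Mu, ra_add, rc_add, ← sum_add_distrib]
  exact sum_congr rfl fun j _ => by ring

theorem Mu_C_mul (a b x : ℤ) (S : Finset ℕ) (c : ℚ) (N : ℚ[X]) :
    Mu a b x S (C c * N) = c * Mu a b x S N := by
  simp only [Mu, ra_C_mul, rc_C_mul, mul_sum]
  exact sum_congr rfl fun j _ => by ring

theorem Mu_sum {ι : Type*} (a b x : ℤ) (S : Finset ℕ) (s : Finset ι) (N : ι → ℚ[X]) :
    Mu a b x S (∑ i ∈ s, N i) = ∑ i ∈ s, Mu a b x S (N i) := by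
  classical
  induction s using Finset.induction_on with
  | empty => simpa using Mu_zero a b x S
  | insert i s hi ih => rw [sum_insert hi, sum_insert hi, Mu_add, ih]

theorem link : LinkStmt := fun a b x L P => by
  induction P using Polynomial.induction_on' with
  | add p q hp hq => rw [D57.Alg.lam_add, mul_add, Mu_add, hp, hq]
  | monomial d c =>
    rw [D57.Alg.lam_monomial, ← C_mul_X_pow_eq_monomial, mul_left_comm, Mu_C_mul, mom]

theorem cancel : CancelStmt := fun a b x S T N h => by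
  unfold Mu
  rw [← sum_sdiff h, sum_eq_zero (s := T) fun j hj => ?_, add_zero]
  · refine sum_congr rfl fun j hj => ?_
    obtain ⟨h1, h2⟩ := mem_sdiff.1 hj
    have h3 : T ⊆ S.erase j := fun i hi => mem_erase.2 ⟨fun g => h2 (g ▸ hi), h hi⟩
    have e : Dp (S.erase j) = Dp ((S \ T).erase j) * Dp T := by
      rw [Dp, ← prod_sdiff h3, erase_sdiff_comm]
      rfl
    have h4 := Dp_ne h2
    have h5 := Dp_ne (notMem_erase j (S \ T))
    have h6 : ra S (Dp T ^ 2 * N) j = ra (S \ T) N j := by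
      simp only [ra, e, eval_mul, eval_pow]
      field_simp
    have h7 : rc S (Dp T ^ 2 * N) j = rc (S \ T) N j := by
      simp only [rc, e, derivative_mul, derivative_sq, eval_mul, eval_pow, eval_add, eval_C]
      field_simp
      ring
    rw [h6, h7]
  · simp [ra, rc, derivative_mul, derivative_sq, Dp_zero hj]

end Pool.Agent.MP_807c24_nt.Z34
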