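import Pool.Agent.MP_807c24_nt.Z34.Spec

/-! Small facts shared by the other files. -/

namespace Pool.Agent.MP_807c24_nt.Z34

open Finset Polynomial
open Pool.Agent.MP_807c24_nt.Z23 (Np rg)

theorem od_add (M M' : Multiset ℤ) (S : Finset ℕ) (q : ℕ) (c : ℤ) :
    od (M + M') S q c = od M S q c + (M'.countP (fun t => (q : ℤ) ∣ t - c) : ℤ) := by
  rw [od, od, Multiset.countP_add]
  push_cast
  ring

theorem od_congr (M : Multiset ℤ) (S : Finset ℕ) (q : ℕ) {c c' : ℤ} (h : (q : ℤ) ∣ c - c') :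
    od M S q c = od M S q c' := by
  have h1 : ∀ t : ℤ, (q : ℤ) ∣ t - c ↔ (q : ℤ) ∣ t - c' := fun t => by
    rw [show t - c' = t - c + (c - c') by ring]
    exact (dvd_add_left h).symm
  have h2 : ∀ j : ℕ, (q : ℤ) ∣ (j : ℤ) + c ↔ (q : ℤ) ∣ (j : ℤ) + c' := fun j => by
    rw [show (j : ℤ) + c = j + c' + (c - c') by ring]
    exact dvd_add_left h
  simp only [od, h1, h2]

theorem card_Zm (L : ℕ) : (Zm L).card = 24 * L := by
  rw [Zm, Multiset.card_nsmul, Z23.card_rg]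
  ring

/-- Integrality when all the poles are at most `p`. -/
theorem entry_zero (he : EntryStmt) (p : ℕ) [Fact p.Prime] (a b x : ℤ) (S : Finset ℕ)
    (M : Multiset ℤ) (hS : ∀ i ∈ S, 1 ≤ i ∧ i ≤ p) : H13.pn p (Mu a b x S (Np M)) ≤ 1 := by
  simpa using he p a b x S M 0 0 (by simpa using hS) (by simp)

/-- The case of poles at most `p ^ 2`. -/
theorem entry_one (he : EntryStmt) (p : ℕ) [Fact p.Prime] (a b x : ℤ) (S : Finset ℕ)
    (M : Multiset ℤ) (y : ℤ) (hS : ∀ i ∈ S, 1 ≤ i ∧ i ≤ p ^ 2)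
    (hy : ∀ j ∈ S, y ≤ od M S p (-(j : ℤ))) :
    H13.pn p (Mu a b x S (Np M)) ≤ (p : ℝ) ^ (2 - y) := by
  simpa using he p a b x S M 1 y hS (by simpa using hy)

end Pool.Agent.MP_807c24_nt.Z34
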