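import Pool.Agent.MP_807c24_nt.Z34.Basic
import Pool.Agent.MP_807c24_nt.Z23.Bound
import Pool.Agent.MP_807c24_nt.Z23.Val
import Pool.Agent.MP_807c24_nt.Z23.Shift

/-! The values of the line integral on double poles, and the bound for the functional. -/

namespace Pool.Agent.MP_807c24_nt.Z34

open Finset Filter Topology Polynomial
open Pool.Agent.MP_807c24_nt.H13 (zr)
open Pool.Agent.MP_807c24_nt.D57 (lam)
open Pool.Agent.MP_807c24_nt.Z23 (Hh Dp Np rg ln JJ Good)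

namespace BoundP

variable {a b : ℤ}

theorem pole_step {j : ℕ} (h : 1 ≤ j) :
    JJ a b 0 (fun s => (s + (j + 1 : ℕ))⁻¹ ^ 2) =
      JJ a b 0 (fun s => (s + j)⁻¹ ^ 2) - (2 * a / (j : ℂ) ^ 3 + 3 * b / (j : ℂ) ^ 4) := by
  have hi := Z23.int
  have hj0 : (j : ℂ) ≠ 0 := Nat.cast_ne_zero.2 (by omega)
  have g0 : Good fun s => (s + j)⁻¹ ^ 2 := (Good.inv h).pow 2
  have g1 : Good fun s => (s + (j + 1 : ℕ))⁻¹ ^ 2 := (Good.inv (j := j + 1) (by omega)).pow 2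
  have gl : Good fun s => 4 * (j : ℂ) + 3 * s := (Good.const _).add ((Good.const 3).mul Good.id)
  have gs : Good fun s : ℂ => s + 1 := Good.id.add (Good.const 1)
  have gl1 : Good fun s => 4 * (j : ℂ) + 3 * (s + 1) := (Good.const _).add ((Good.const 3).mul gs)
  have h2 := Z23.shift a b 0 _ (gl.mul g0)
  rw [Z23.ValP.JJ_succ] at h2
  have gA : Good fun s => (s + 1) ^ 3 * ((4 * (j : ℂ) + 3 * (s + 1)) * (s + (j + 1 : ℕ))⁻¹ ^ 2) :=
    (gs.pow 3).mul (gl1.mul g1)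
  have gB : Good fun s => s ^ 3 * ((4 * (j : ℂ) + 3 * s) * (s + j)⁻¹ ^ 2) :=
    (Good.id.pow 3).mul (gl.mul g0)
  have h3 : JJ a b 0
      (fun s => (s + 1) ^ 3 * ((4 * (j : ℂ) + 3 * (s + 1)) * (s + (j + 1 : ℕ))⁻¹ ^ 2)) =
      JJ a b 0 fun s => s ^ 3 * ((4 * (j : ℂ) + 3 * s) * (s + j)⁻¹ ^ 2) := by
    rw [Z23.ValP.JJ_congr (g := fun s => (s + 1 - (0 : ℕ)) ^ 3 *
      ((4 * (j : ℂ) + 3 * (s + 1)) * (s + 1 + j)⁻¹ ^ 2)) fun y => by push_cast; ring, h2]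
    exact Z23.ValP.JJ_congr fun y => by simp
  have gC : Good fun s => 2 * s + 1 := ((Good.const 2).mul Good.id).add (Good.const 1)
  have h4 : JJ a b 0 (fun s => (s + (j + 1 : ℕ))⁻¹ ^ 2 - (s + j)⁻¹ ^ 2) =
      JJ a b 0 fun s => (-2 * ((j : ℂ) ^ 3)⁻¹ * 1 + 3 * ((j : ℂ) ^ 4)⁻¹ * (2 * s + 1)) -
        ((j : ℂ) ^ 4)⁻¹ *
          ((s + 1) ^ 3 * ((4 * (j : ℂ) + 3 * (s + 1)) * (s + (j + 1 : ℕ))⁻¹ ^ 2) -
            s ^ 3 * ((4 * (j : ℂ) + 3 * s) * (s + j)⁻¹ ^ 2)) := by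
    refine Z23.ValP.JJ_congr fun y => ?_
    have hre := Z23.BoundP.ln_re 0 y
    have n0 := Good.ne h hre
    have n1 := Good.ne (j := j + 1) (by omega) hre
    generalize ln 0 y = s at n0 n1
    field_simp
    push_cast
    ring
  rw [Z23.ValP.JJ_sub hi 0 g1 g0,
    Z23.ValP.JJ_sub hi 0 (((Good.const _).mul (Good.const 1)).add ((Good.const _).mul gC))
      ((Good.const _).mul (gA.sub gB)),
    Z23.ValP.JJ_add hi 0 ((Good.const _).mul (Good.const 1)) ((Good.const _).mul gC),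
    Z23.ValP.JJ_mul, Z23.ValP.JJ_mul, Z23.ValP.JJ_mul, Z23.ValP.JJ_sub hi 0 gA gB, h3,
    (Z23.jump a b).1, (Z23.jump a b).2] at h4
  linear_combination h4

theorem pole_lim :
    Tendsto (fun j : ℕ => JJ a b 0 fun s => (s + (j + 1 : ℕ))⁻¹ ^ 2) atTop (𝓝 0) := by
  obtain ⟨C, -, hC⟩ := (Z23.int a b).2
  have h1 : Tendsto (fun j : ℕ => C * ((j : ℝ) + 1 / 2)⁻¹ ^ 2) atTop (𝓝 0) := by
    simpa using ((tendsto_atTop_add_const_right _ (1 / 2 : ℝ)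
      tendsto_natCast_atTop_atTop).inv_tendsto_atTop.pow 2).const_mul C
  refine squeeze_zero_norm (fun j => hC 0 _ _ fun y => ?_) h1
  have h0 : (0 : ℝ) < j + 1 / 2 := by positivity
  have h2 : (j : ℝ) + 1 / 2 ≤ ‖ln 0 y + (j + 1 : ℕ)‖ := by
    refine le_trans ?_ (Complex.re_le_norm _)
    simp [ln]
    linarith
  rw [norm_pow, norm_inv]
  exact (pow_le_pow_left₀ (by positivity) (inv_anti₀ h0 h2) 2).trans
    (le_mul_of_one_le_right (by positivity) (Real.one_le_exp (by positivity)))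

theorem H2_lim : Tendsto (fun j : ℕ => ((H2 a b (j + 1) : ℚ) : ℝ)) atTop
    (𝓝 (2 * a * zr 3 + 3 * b * zr 4)) := by
  refine (((Z23.ValP.zr_lim (s := 3) (by norm_num)).const_mul (2 * a : ℝ)).add
    ((Z23.ValP.zr_lim (s := 4) (by norm_num)).const_mul (3 * b : ℝ))).congr fun j => ?_
  rw [H2, sum_Ico_eq_sum_range, mul_sum, mul_sum, ← sum_add_distrib]
  push_cast
  exact sum_congr (by simp) fun u _ => by ring

theorem H2_succ {j : ℕ} (h : 1 ≤ j) :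
    H2 a b (j + 1) = H2 a b j + (2 * a / (j : ℚ) ^ 3 + 3 * b / (j : ℚ) ^ 4) := sum_Ico_succ_top h _

theorem val_pole {j : ℕ} (h : 1 ≤ j) :
    JJ a b 0 (fun s => (s + j)⁻¹ ^ 2) = ((2 * a * zr 3 + 3 * b * zr 4 - H2 a b j : ℝ) : ℂ) := by
  have h1 : ∀ i : ℕ,
      JJ a b 0 (fun s => (s + (i + 1 : ℕ))⁻¹ ^ 2) + (((H2 a b (i + 1) : ℚ) : ℝ) : ℂ) =
      JJ a b 0 (fun s => (s + (0 + 1 : ℕ))⁻¹ ^ 2) + (((H2 a b (0 + 1) : ℚ) : ℝ) : ℂ) := fun i => by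
    induction i with
    | zero => rfl
    | succ i ih =>
      rw [pole_step (j := i + 1) (by omega), H2_succ (j := i + 1) (by omega), ← ih]
      push_cast
      ring
  have h2 := (pole_lim (a := a) (b := b)).add (H2_lim (a := a) (b := b)).ofReal
  simp only [h1] at h2
  have h3 := tendsto_nhds_unique h2 tendsto_const_nhds
  obtain ⟨i, rfl⟩ : ∃ i, j = i + 1 := ⟨j - 1, by omega⟩
  rw [← h1 i] at h3
  push_cast at h3 ⊢
  linear_combination -h3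

theorem aeval_Z (L : ℕ) (s : ℂ) : aeval s (Np (Zm L)) = ∏ t ∈ range (8 * L), (s - t) ^ 3 :=
  Z23.BoundP.aeval_Z (8 * L) s

theorem deg (L : ℕ) {P : ℚ[X]} (hP : P.natDegree ≤ 56 * L + 2) :
    (Np (Zm L) * P).natDegree + 2 ≤ 2 * (Icc 1 (40 * L + 2)).card := by
  have h := natDegree_mul_le (p := Np (Zm L)) (q := P)
  rw [Z23.Np_natDegree, card_Zm] at h
  rw [Nat.card_Icc]
  omega

theorem split (hp : PfStmt) (L : ℕ) {P : ℚ[X]} (hP : P.natDegree ≤ 56 * L + 2) {s : ℂ}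
    (hs : -1 < s.re) :
    Rr L s * aeval s P = ∑ j ∈ Icc 1 (40 * L + 2),
      (((ra (Icc 1 (40 * L + 2)) (Np (Zm L) * P) j : ℚ) : ℂ) * (s + j)⁻¹ ^ 2 +
        ((rc (Icc 1 (40 * L + 2)) (Np (Zm L) * P) j : ℚ) : ℂ) * (s + j)⁻¹) := by
  have hne : ∀ j ∈ Icc 1 (40 * L + 2), s + (j : ℂ) ≠ 0 := fun j hj => Good.ne (mem_Icc.1 hj).1 hs
  have hD : ∏ j ∈ Icc 1 (40 * L + 2), (s + (j : ℂ)) ^ 2 ≠ 0 :=
    prod_ne_zero_iff.2 fun j hj => pow_ne_zero 2 (hne j hj)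
  have h := congrArg (aeval s) (hp _ _ (deg L hP)).1
  rw [map_mul, map_sum, aeval_Z] at h
  rw [Rr, div_mul_eq_mul_div, div_eq_iff hD, h, sum_mul]
  refine sum_congr rfl fun j hj => ?_
  have h0 := hne j hj
  rw [map_mul, map_pow, Z23.BoundP.aeval_Dp, ← mul_prod_erase _ _ hj, prod_pow]
  simp only [map_add, map_mul, aeval_C, aeval_X, eq_ratCast, Rat.cast_natCast]
  field_simp

theorem base (hp : PfStmt) (hl : LinkStmt) (a b x : ℤ)
    (hx : (x : ℝ) = 2 * a * zr 3 + 3 * b * zr 4) (L : ℕ) {P : ℚ[X]}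
    (hP : P.natDegree ≤ 56 * L + 2) :
    JJ a b 0 (fun s => Rr L s * aeval s P) = ((lam (mom a b x L) P : ℚ) : ℂ) := by
  have hi := Z23.int
  have hv := (Z23.val Z23.int Z23.shift Z23.jump a b).2
  have hg1 : ∀ j ∈ Icc 1 (40 * L + 2), Good fun s : ℂ =>
      ((ra (Icc 1 (40 * L + 2)) (Np (Zm L) * P) j : ℚ) : ℂ) * (s + j)⁻¹ ^ 2 :=
    fun j hj => (Good.const _).mul ((Good.inv (mem_Icc.1 hj).1).pow 2)
  have hg2 : ∀ j ∈ Icc 1 (40 * L + 2), Good fun s : ℂ =>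
      ((rc (Icc 1 (40 * L + 2)) (Np (Zm L) * P) j : ℚ) : ℂ) * (s + j)⁻¹ :=
    fun j hj => (Good.const _).mul (Good.inv (mem_Icc.1 hj).1)
  have h0 := congrArg (fun q : ℚ => (q : ℂ) * ((a * zr 2 + b * zr 3 : ℝ) : ℂ))
    (hp _ _ (deg L hP)).2
  simp only [Rat.cast_sum, Rat.cast_zero, zero_mul, sum_mul] at h0
  rw [Z23.BoundP.JJ_congr a b 0 fun s hs => split hp L hP hs,
    Z23.BoundP.JJ_sum hi a b 0 _ fun j hj => (hg1 j hj).add (hg2 j hj), hl, Mu, Rat.cast_sum,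
    ← add_zero (∑ j ∈ Icc 1 (40 * L + 2), ((_ : ℚ) : ℂ)), ← h0, ← sum_add_distrib]
  refine sum_congr rfl fun j hj => ?_
  rw [Z23.BoundP.JJ_add hi a b 0 (hg1 j hj) (hg2 j hj), Z23.BoundP.JJ_cmul, Z23.BoundP.JJ_cmul,
    hv j (mem_Icc.1 hj).1, val_pole (mem_Icc.1 hj).1, ← hx]
  push_cast
  ring

theorem step (a b : ℤ) (L n : ℕ) (P : ℚ[X]) (hn : n < 8 * L) :
    JJ a b (n + 1) (fun s => Rr L s * aeval s P) = JJ a b n (fun s => Rr L s * aeval s P) := by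
  have hg : Good fun s : ℂ => (∏ t ∈ (range (8 * L)).erase n, (s - t) ^ 3) *
      (∏ j ∈ Icc 1 (40 * L + 2), (s + j)⁻¹ ^ 2) * aeval s P :=
    ((Good.prod fun t _ => (Good.id.sub (Good.const _)).pow 3).mul
      (Good.prod fun j hj => (Good.inv (mem_Icc.1 hj).1).pow 2)).mul (Good.aeval P)
  have he : (fun s : ℂ => Rr L s * aeval s P) = fun s : ℂ => (s - n) ^ 3 *
      ((∏ t ∈ (range (8 * L)).erase n, (s - t) ^ 3) *
        (∏ j ∈ Icc 1 (40 * L + 2), (s + j)⁻¹ ^ 2) * aeval s P) := by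
    funext s
    simp only [inv_pow]
    rw [Rr, ← mul_prod_erase _ _ (mem_range.2 hn), div_eq_mul_inv, prod_inv_distrib]
    ring
  rw [he]
  exact Z23.shift a b n _ hg

end BoundP

theorem val : ValStmt := fun _ _ _ h => BoundP.val_pole h

theorem bound (hp : PfStmt) (hl : LinkStmt) : BoundStmt := by
  intro a b x hx
  obtain ⟨C, hC, hb⟩ := (Z23.int a b).2
  refine ⟨C, hC, fun L P B hP hB => ?_⟩
  have h : ∀ m : ℕ, m ≤ 8 * L →
      JJ a b m (fun s => Rr L s * aeval s P) = ((lam (mom a b x L) P : ℚ) : ℂ) := by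
    intro m hm
    induction m with
    | zero => exact BoundP.base hp hl a b x hx L hP
    | succ m ih => rw [BoundP.step a b L m P hm, ih (Nat.le_of_succ_le hm)]
  have h2 := hb (8 * L) (fun s => Rr L s * aeval s P) B hB
  rw [h _ le_rfl, ← Complex.ofReal_ratCast, Complex.norm_real, Real.norm_eq_abs] at h2
  exact h2

end Pool.Agent.MP_807c24_nt.Z34
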