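import Pool.Agent.MP_807c24_nt.Z34.Basic
import Pool.Agent.MP_807c24_nt.Z23.Entry

/-! p-adic bounds for the coefficients and for one entry. -/

namespace Pool.Agent.MP_807c24_nt.Z34

open Finset Polynomial
open Pool.Agent.MP_807c24_nt.H13 (pn)
open Pool.Agent.MP_807c24_nt.H13.Class
open Pool.Agent.MP_807c24_nt.Z23 (Hh Dp Np Np_zero Np_cons)
open Pool.Agent.MP_807c24_nt.Z23.EntryP

namespace EntryP

variable {p : ℕ} [hp : Fact p.Prime]

omit hp in
theorem sum_od2 (A : ℕ) (M : Multiset ℤ) (S : Finset ℕ) (c : ℤ) :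
    ∑ e ∈ Icc 1 A, od M S (p ^ e) c = cz p A M c - 2 * ∑ j ∈ S, wv p A (j + c) := by
  simp only [od, sum_sub_distrib, cz, wv, card_filter, ← mul_sum]
  rw [sum_comm]
  push_cast
  rfl

theorem deriv_Np (A : ℕ) (c : ℤ) (M : Multiset ℤ) :
    pn p ((Np M).derivative.eval (c : ℚ)) ≤ (p : ℝ) ^ (-cz p A M c + A) := by
  induction M using Multiset.induction_on with
  | empty =>
    rw [Np_zero, derivative_one, eval_zero, pn_zero]
    exact zpow_nonneg p_pos.le _
  | cons t M ih =>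
    rw [Np_cons, cz_cons, derivative_mul, eval_add, eval_mul, eval_mul]
    refine pn_add ?_ ?_
    · have h1 : pn p ((derivative (X - C (t : ℚ))).eval (c : ℚ)) ≤ 1 := by simpa using pn_one.le
      refine (pn_mul_le h1 (eval_Np A c M)).trans ?_
      rw [one_mul]
      have := wv_le (p := p) A (t - c)
      exact zpow_le_zpow_right₀ one_le_p (by omega)
    · have h1 := pn_le_wv (p := p) A (-(t - c))
      rw [wv_neg] at h1
      have h2 : pn p ((X - C (t : ℚ)).eval (c : ℚ)) ≤ (p : ℝ) ^ (-wv p A (t - c)) := by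
        simpa using h1
      refine (pn_mul_le h2 ih).trans_eq ?_
      rw [← zpow_add₀ p_pos.ne']
      congr 1
      ring

omit hp in
theorem cz_Dp (A : ℕ) (c : ℤ) (S : Finset ℕ) :
    cz p A (S.val.map fun j : ℕ => -(j : ℤ)) c = ∑ j ∈ S, wv p A (j + c) := by
  induction S using Finset.induction_on with
  | empty => simp [cz]
  | insert j S hj ih =>
    rw [insert_val_of_notMem hj, Multiset.map_cons, cz_cons, ih, sum_insert hj, ← wv_neg]
    congr 2
    ring

theorem pn_H2 (a b x : ℤ) {j A : ℕ} (h : j ≤ p ^ (A + 1)) :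
    pn p (x - H2 a b j) ≤ (p : ℝ) ^ (4 * (A : ℤ)) := by
  have hB : (1 : ℝ) ≤ (p : ℝ) ^ A := one_le_pow₀ one_le_p
  have e : (p : ℝ) ^ (4 * (A : ℤ)) = ((p : ℝ) ^ A) ^ 4 := by
    rw [← pow_mul, ← zpow_natCast]
    congr 1
    push_cast
    ring
  rw [e]
  refine pn_sub ((pn_int x).trans (one_le_pow₀ hB)) (pn_sum (by positivity) fun u hu => ?_)
  obtain ⟨u1, u2⟩ := mem_Ico.1 hu
  have h0 : (pn p (u : ℚ))⁻¹ ≤ (p : ℝ) ^ A := by
    have := pn_eq_wv (p := p) A (z := u) (by omega) (by simpa using u2.trans_le h)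
    rw [Int.cast_natCast] at this
    rw [this, zpow_neg, inv_inv, ← zpow_natCast]
    exact zpow_le_zpow_right₀ one_le_p (wv_le A _)
  have h1 : ∀ n : ℕ, pn p ((u : ℚ) ^ n)⁻¹ ≤ ((p : ℝ) ^ A) ^ n := fun n => by
    rw [pn_inv, pn_pow, ← inv_pow]
    exact pow_le_pow_left₀ (inv_nonneg.2 (pn_nonneg _)) h0 n
  rw [div_eq_mul_inv, div_eq_mul_inv]
  refine pn_add (le_trans ?_ (pow_le_pow_right₀ hB (show 3 ≤ 4 by omega))) ?_
  · simpa using pn_mul_le (pn_int (p := p) (2 * a)) (h1 3)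
  · simpa using pn_mul_le (pn_int (p := p) (3 * b)) (h1 4)

end EntryP

open EntryP

theorem resB : ResStmt := by
  intro p _ S M A j hj hS
  set w : ℤ := ∑ i ∈ S.erase j, wv p A (i + -(j : ℤ)) with hw
  have e : pn p ((Dp (S.erase j)).eval (-(j : ℚ))) = (p : ℝ) ^ (-w) := by
    rw [Dp, eval_prod, pn_prod, hw, ← sum_neg_distrib, ← prod_zp]
    refine prod_congr rfl fun i hi => ?_
    obtain ⟨i1, i2⟩ := mem_erase.1 hi
    have h1 := hS i i2
    have h2 := hS j hj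
    have := pn_eq_wv (p := p) A (z := i + -(j : ℤ)) (by omega) (by omega)
    simpa [add_comm] using this
  have e' : pn p ((Dp (S.erase j)).derivative.eval (-(j : ℚ))) ≤ (p : ℝ) ^ (-w + A) := by
    have := deriv_Np (p := p) A (-(j : ℤ)) ((S.erase j).val.map fun j : ℕ => -(j : ℤ))
    rwa [cz_Dp, ← Z23.Dp_eq, Int.cast_neg, Int.cast_natCast] at this
  have h := eval_Np (p := p) A (-(j : ℤ)) M
  have h' := deriv_Np (p := p) A (-(j : ℤ)) M
  rw [Int.cast_neg, Int.cast_natCast] at h h'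
  have i1 : ∀ n : ℕ, pn p ((Dp (S.erase j)).eval (-(j : ℚ)) ^ n)⁻¹ ≤ (p : ℝ) ^ (w * n) :=
    fun n => by rw [pn_inv, pn_pow, e, ← zpow_natCast, ← zpow_mul, ← zpow_neg, neg_mul, neg_neg]
  rw [sum_od2, ← Finset.add_sum_erase S _ hj, add_neg_cancel, wv_zero, ← hw, ra, rc,
    div_eq_mul_inv, div_eq_mul_inv, div_eq_mul_inv]
  refine ⟨(pn_mul_le h (i1 2)).trans_eq ?_, pn_sub ((pn_mul_le h' (i1 2)).trans_eq ?_)
    ((pn_mul_le (pn_mul_le (pn_mul_le (pn_nat 2) h) e') (i1 3)).trans_eq ?_)⟩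
  all_goals
    simp only [one_mul, ← zpow_add₀ (p_pos (p := p)).ne']
    congr 1
    push_cast
    ring

theorem entry : EntryStmt := by
  intro p _ a b x S M A y hS hy
  refine pn_sum (zpow_nonneg p_pos.le _) fun j hj => ?_
  obtain ⟨h1, h2⟩ := resB p S M A j hj hS
  have h3 := pn_Hh_pow (p := p) a b 0 (hS j hj).2
  rw [Int.cast_zero, zero_sub, pn_neg] at h3
  have h4 := hy j hj
  refine pn_sub ((pn_mul_le h1 (pn_H2 a b x (hS j hj).2)).trans ?_) ((pn_mul_le h2 h3).trans ?_)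
  all_goals
    rw [← zpow_add₀ p_pos.ne']
    exact zpow_le_zpow_right₀ one_le_p (by omega)

end Pool.Agent.MP_807c24_nt.Z34
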