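import Pool.Agent.MP_807c24_nt.Z34.Basic
import Pool.Agent.MP_807c24_nt.Z23.Final

/-! The product formula gives the contradiction; passage to linear independence. -/

namespace Pool.Agent.MP_807c24_nt.Z34

open Finset Filter Topology
open Pool.Agent.MP_807c24_nt.H13 (pn zr)
open Pool.Agent.MP_807c24_nt.Z23.FinalP (small_ev zeta_eq)

theorem core (hr : RealStmt) (hS : SmallStmt) (hM : MediumStmt) (hL : LargeStmt)
    (hN : NonzeroStmt) (hP : PrimeStmt) : CoreStmt := by
  intro a b x hb hx
  obtain ⟨C, hC⟩ := hr a b x hx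
  obtain ⟨N, hN'⟩ := eventually_atTop.1 (hP.and (small_ev C))
  obtain ⟨q, hq, hq1, hq2⟩ := Nat.exists_prime_gt_modEq_one (k := 26)
    (26 * (N + 1) + b.natAbs) (by norm_num)
  obtain ⟨L, hqL⟩ : ∃ L, q = 26 * L + 1 := ⟨q / 26, by unfold Nat.ModEq at hq2; omega⟩
  have : Fact q.Prime := ⟨hq⟩
  obtain ⟨h1, h2⟩ := hN' L (by omega)
  have h0 : Del a b x L ≠ 0 := hN q a b x L hqL fun h => by
    have := Nat.le_of_dvd (Int.natAbs_pos.2 hb) (Int.natCast_dvd.1 h)
    omega
  have h3 := D57.prodF (Del a b x L) ((range (48 * L + 2 + 1)).filter Nat.Prime) (ff L) h0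
    (fun p hp => (mem_filter.1 hp).2) fun p hp => by
      split_ifs with h
      · unfold ff
        split_ifs with h5 h6
        · exact hS p a b x L
        · exact hM p a b x L (by omega)
        · exact hL p a b x L (by omega)
      · have h4 : 48 * L + 2 + 1 ≤ p := by
          by_contra h5
          exact h (mem_filter.2 ⟨mem_range.2 (by omega), hp.out⟩)
        refine (hL p a b x L (by omega)).trans_eq ?_
        rw [fL, show 40 * L + 2 - p = 0 by omega, show 26 * L + 1 - p = 0 by omega]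
        simp
  have h4 := (Real.log_le_iff_le_exp (abs_pos.2 (by exact_mod_cast h0))).2 (hC L (by omega))
  have h5 : (1 : ℝ) ≤ L := by exact_mod_cast (show 1 ≤ L by omega)
  have h6 := Real.log_nonneg h5
  nlinarith [mul_lt_mul_of_pos_left h2 (show (0 : ℝ) < L by linarith), mul_nonneg h6 (show (0 : ℝ) ≤ L by linarith)]

/-- Rational relations between `1`, `zeta(3)` and `zeta(4)` are trivial. -/
theorem rel (hc : CoreStmt) (h3 : Z23.CoreStmt) (u v w : ℚ)
    (h : (u : ℝ) + v * zr 3 + w * zr 4 = 0) : u = 0 ∧ v = 0 ∧ w = 0 := by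
  have e : ∀ r : ℚ, (r.num : ℝ) = r * r.den := fun r => by exact_mod_cast (Rat.mul_den_eq_num r).symm
  have hw : w = 0 := by
    by_contra hw
    refine hc (3 * v.num * u.den * w.den) (2 * w.num * u.den * v.den) (-(6 * u.num * v.den * w.den))
      (mul_ne_zero (mul_ne_zero (mul_ne_zero two_ne_zero (Rat.num_ne_zero.2 hw))
        (by exact_mod_cast u.den_nz)) (by exact_mod_cast v.den_nz)) ?_
    push_cast
    rw [e u, e v, e w]
    linear_combination (-(6 * (u.den : ℝ) * v.den * w.den)) * h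
  have hv : v = 0 := by
    by_contra hv
    refine h3 0 (v.num * u.den) (-(u.num * v.den))
      (mul_ne_zero (Rat.num_ne_zero.2 hv) (by exact_mod_cast u.den_nz)) ?_
    rw [hw] at h
    push_cast at h ⊢
    rw [e u, e v]
    linear_combination (-((u.den : ℝ) * v.den)) * h
  rw [hw, hv] at h
  exact ⟨by simpa using h, hv, hw⟩

theorem indep6 (hc : CoreStmt) (h3 : Z23.CoreStmt) :
    LinearIndependent ℚ ![(1 : ℂ), riemannZeta 3, riemannZeta 4, 2 * Real.pi * Complex.I,
      2 * Real.pi * Complex.I * riemannZeta 3, 2 * Real.pi * Complex.I * riemannZeta 4] := by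
  have e3 : riemannZeta 3 = (zr 3 : ℂ) := zeta_eq (k := 3) (by norm_num)
  have e4 : riemannZeta 4 = (zr 4 : ℂ) := zeta_eq (k := 4) (by norm_num)
  rw [Fintype.linearIndependent_iff]
  intro g hg
  have e : (((g 0 : ℝ) + g 1 * zr 3 + g 2 * zr 4 : ℝ) : ℂ) +
      ((2 * Real.pi * ((g 3 : ℝ) + g 4 * zr 3 + g 5 * zr 4) : ℝ) : ℂ) * Complex.I = 0 := by
    rw [← hg]
    simp only [Fin.sum_univ_six, e3, e4, Rat.smul_def, Matrix.cons_val_zero,
      Matrix.cons_val_one, Matrix.cons_val]
    push_cast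
    ring
  have h1 := congrArg Complex.re e
  have h2 := congrArg Complex.im e
  simp only [Complex.add_re, Complex.mul_re, Complex.ofReal_re, Complex.ofReal_im, Complex.I_re,
    Complex.I_im, Complex.add_im, Complex.mul_im, mul_zero, mul_one, zero_add, add_zero, sub_zero,
    Complex.zero_re, Complex.zero_im] at h1 h2
  obtain ⟨a0, a1, a2⟩ := rel hc h3 _ _ _ h1
  obtain ⟨a3, a4, a5⟩ := rel hc h3 _ _ _
    ((mul_eq_zero.1 h2).resolve_left (by positivity))
  intro i
  fin_cases i
  · exact a0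
  · exact a1
  · exact a2
  · exact a3
  · exact a4
  · exact a5

end Pool.Agent.MP_807c24_nt.Z34
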