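import Pool.Agent.MP_807c24_nt.Z34.Basic
import Pool.Agent.MP_807c24_nt.Z23.Large

/-! The bound for the Hankel determinant at the large primes. -/

namespace Pool.Agent.MP_807c24_nt.Z34

open Finset Polynomial
open Pool.Agent.MP_807c24_nt.H13 (pn)
open Pool.Agent.MP_807c24_nt.D57 (lam hank)
open Pool.Agent.MP_807c24_nt.Z23 (Dp Np)

namespace LargeP

/-- The poles that are cancelled. -/
def TT (L p : ℕ) : Finset ℕ := Ioc p (40 * L + 2)

theorem TT_sub (L p : ℕ) : TT L p ⊆ Icc 1 (40 * L + 2) := fun j hj => by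
  simp only [TT, mem_Ioc, mem_Icc] at hj ⊢
  omega

theorem TT_card (L p : ℕ) : (TT L p).card = 40 * L + 2 - p := Nat.card_Ioc _ _

/-- The roots of `Dp (TT L p)`. -/
def TM (L p : ℕ) : Multiset ℤ := (TT L p).val.map fun j : ℕ => -(j : ℤ)

theorem card_TM (L p : ℕ) : (TM L p).card = 40 * L + 2 - p := by
  rw [TM, Multiset.card_map, card_val, TT_card]

theorem countP_TM (L p : ℕ) (c : ℤ) :
    (TM L p).countP (fun t => (p : ℤ) ∣ t - c) =
      ((TT L p).filter fun j : ℕ => (p : ℤ) ∣ (j : ℤ) + c).card := by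
  rw [TM, Multiset.countP_map, Finset.card_def, Finset.filter_val]
  congr 1
  refine Multiset.filter_congr fun j _ => ?_
  rw [show -(j : ℤ) - c = -((j : ℤ) + c) by ring, dvd_neg]

/-- How many times the basis polynomial contains `Dp (TT L p)`. -/
def lv (L p i : ℕ) : ℕ :=
  if i < 40 * L + 2 - p then 0 else if i < 2 * (40 * L + 2 - p) then 1 else 2

/-- Roots of the basis polynomials. -/
def Bs (L p i : ℕ) : Multiset ℤ :=
  lv L p i • TM L p + Multiset.replicate (i - lv L p i * (40 * L + 2 - p)) 0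

theorem card_Bs (L p i : ℕ) : (Bs L p i).card = i := by
  rw [Bs, Multiset.card_add, Multiset.card_nsmul, card_TM, Multiset.card_replicate, lv]
  split_ifs <;> omega

/-- Weights. -/
def ww (L p i : ℕ) : ℕ :=
  if i < 40 * L + 2 - p then 3 else if i < 2 * (40 * L + 2 - p) then 2 else 0

theorem sum_ww (L p Z : ℕ) : ∑ i ∈ range Z, ww L p i =
    min Z (40 * L + 2 - p) + 2 * min Z (2 * (40 * L + 2 - p)) := by
  induction Z with
  | zero => simp
  | succ Z ih =>
    rw [sum_range_succ, ih, ww]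
    split_ifs <;> omega

variable (he : EntryStmt) {p : ℕ} [hp : Fact p.Prime] (a b x : ℤ) {L : ℕ} (h : 20 * L + 1 ≤ p)

include h in
theorem rng : ∀ j ∈ Icc 1 (40 * L + 2), 1 ≤ j ∧ j ≤ p ^ 2 := fun j hj => by
  have h1 := mem_Icc.1 hj
  have h2 : 2 * p ≤ p ^ 2 := by
    rw [sq]
    exact Nat.mul_le_mul_right p hp.out.two_le
  omega

include he h in
theorem entA (M : Multiset ℤ) :
    pn p (Mu a b x (Icc 1 (40 * L + 2)) (Np M)) ≤ (p : ℝ) ^ (6 : ℕ) := by
  refine (entry_one he p a b x _ M (-4) (rng h) fun j _ => ?_).trans (le_of_eq ?_)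
  · have := Z23.LargeP.two (p := p) (S := Icc 1 (40 * L + 2))
      (fun j hj => by rw [mem_Icc] at hj; omega) (-(j : ℤ))
    unfold od
    omega
  · rw [← zpow_natCast]
    norm_num

include he h in
theorem entB (M : Multiset ℤ) :
    pn p (Mu a b x (Icc 1 (40 * L + 2)) (Np (M + TM L p))) ≤ (p : ℝ) ^ (5 : ℕ) := by
  refine (entry_one he p a b x _ _ (-3) (rng h) fun j _ => ?_).trans (le_of_eq ?_)
  · have h1 := Z23.LargeP.one (p := p) (u := 0) (S := Icc 1 p)
      (fun j hj => by rw [mem_Icc] at hj; omega) (-(j : ℤ))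
    have h2 := Z23.LargeP.one (p := p) (u := p) (S := TT L p)
      (fun j hj => by rw [TT, mem_Ioc] at hj; omega) (-(j : ℤ))
    have h3 : ((Icc 1 (40 * L + 2)).filter fun i : ℕ => (p : ℤ) ∣ (i : ℤ) + -(j : ℤ)).card ≤
        ((Icc 1 p).filter fun i : ℕ => (p : ℤ) ∣ (i : ℤ) + -(j : ℤ)).card +
          ((TT L p).filter fun i : ℕ => (p : ℤ) ∣ (i : ℤ) + -(j : ℤ)).card := by
      refine le_trans (card_le_card fun i hi => ?_) (card_union_le _ _)
      simp only [TT, mem_filter, mem_union, mem_Icc, mem_Ioc] at hi ⊢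
      rcases le_or_gt i p with h | h
      · exact Or.inl ⟨⟨hi.1.1, h⟩, hi.2⟩
      · exact Or.inr ⟨⟨h, hi.1.2⟩, hi.2⟩
    rw [od_add, countP_TM]
    unfold od
    omega
  · rw [← zpow_natCast]
    norm_num

include he in
theorem entC (hc : CancelStmt) (M : Multiset ℤ) :
    pn p (Mu a b x (Icc 1 (40 * L + 2)) (Np (M + 2 • TM L p))) ≤ 1 := by
  rw [Z23.Np_add, Z23.Np_nsmul, TM, ← Z23.Dp_eq, mul_comm (Np M), hc _ _ _ _ _ _ (TT_sub L p)]
  refine entry_zero he p a b x _ M fun i hi => ?_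
  simp only [TT, mem_sdiff, mem_Icc, mem_Ioc] at hi
  omega

include he h in
theorem entry (hl : LinkStmt) (hc : CancelStmt) (i j : ℕ) :
    pn p (lam (mom a b x L) (Np (Bs L p i) * Np (Bs L p j))) ≤ (p : ℝ) ^ (ww L p i + ww L p j) := by
  have h1 : (1 : ℝ) ≤ p := H13.Class.one_le_p
  obtain ⟨M, hM⟩ : ∃ M, Zm L + (Bs L p i + Bs L p j) = M + (lv L p i + lv L p j) • TM L p :=
    ⟨Zm L + (Multiset.replicate (i - lv L p i * (40 * L + 2 - p)) 0 +
      Multiset.replicate (j - lv L p j * (40 * L + 2 - p)) 0), by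
      rw [Bs, Bs, add_nsmul]
      abel⟩
  rw [hl, ← Z23.Np_add, ← Z23.Np_add, hM]
  rcases Nat.lt_or_ge (lv L p i + lv L p j) 2 with h2 | h2
  · rcases Nat.lt_or_ge (lv L p i + lv L p j) 1 with h3 | h3
    · refine (entA he a b x h _).trans (pow_le_pow_right₀ h1 ?_)
      unfold lv at h3
      unfold ww
      split_ifs at h3 ⊢ <;> omega
    · rw [show lv L p i + lv L p j = 1 by omega, one_nsmul]
      refine (entB he a b x h _).trans (pow_le_pow_right₀ h1 ?_)
      unfold lv at h2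
      unfold lv at h3
      unfold ww
      split_ifs at h2 h3 ⊢ <;> omega
  · obtain ⟨m, hm⟩ := Nat.exists_eq_add_of_le' h2
    rw [hm, add_nsmul, ← add_assoc]
    exact (entC he a b x hc _).trans (one_le_pow₀ h1)

end LargeP

open LargeP in
theorem large (hl : LinkStmt) (hc : CancelStmt) (he : EntryStmt) : LargeStmt := by
  intro p _ a b x L h
  rw [Del, ← D57.gram ℚ _ (28 * L + 2) (fun i => Np (Bs L p i))
    fun i => ⟨Z23.Np_monic _, (Z23.Np_natDegree _).trans (card_Bs L p i)⟩]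
  refine (D57.detP p _ _ (fun i => (p : ℝ) ^ ww L p i) fun i j => ?_).trans (le_of_eq ?_)
  · rw [Matrix.of_apply, ← pow_add]
    exact entry he a b x h hl hc i j
  · have e3 : ∀ i : Fin (28 * L + 2), ((p : ℝ) ^ ww L p i) ^ 2 = (p : ℝ) ^ (2 * ww L p i) :=
      fun i => by rw [← pow_mul, mul_comm]
    simp only [e3]
    rw [prod_pow_eq_pow_sum, ← mul_sum, Fin.sum_univ_eq_sum_range (ww L p), fL]
    have e4 : 2 * ∑ i ∈ range (28 * L + 2), ww L p i + 8 * (26 * L + 1 - p) =
        10 * (40 * L + 2 - p) := by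
      rw [sum_ww]
      omega
    have e5 := congrArg (Nat.cast : ℕ → ℝ) e4
    rw [Nat.cast_add, Nat.cast_mul 8, Nat.cast_mul 10] at e5
    rw [← Real.exp_log (pow_pos H13.Class.p_pos _), Real.log_pow]
    congr 2
    simp only [Nat.cast_ofNat] at e5
    linarith

end Pool.Agent.MP_807c24_nt.Z34
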