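import Pool.Agent.MP_807c24_nt.Z34.Basic
import Pool.Agent.MP_807c24_nt.Z23.Medium
import Pool.Agent.MP_807c24_nt.D57.Sq

/-!
The sum of the squares of the class multiplicities, and the bound for the medium primes.
-/

namespace Pool.Agent.MP_807c24_nt.Z34

open Finset Polynomial
open Pool.Agent.MP_807c24_nt.H13 (pn)
open Pool.Agent.MP_807c24_nt.D57 (lam hank psi)
open Pool.Agent.MP_807c24_nt.D57.Sq (cnt cnt_add one)
open Pool.Agent.MP_807c24_nt.Z23 (Np rg)

namespace MediumP

theorem od_eq (L q c : ℕ) : od (Zm L) (Icc 1 (40 * L + 2)) q c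
    = 3 * cnt q 0 (8 * L) c - 2 * cnt q (-(40 * L + 2 : ℕ)) (40 * L + 2) c := by
  rw [od, Zm, Multiset.countP_nsmul, Z23.countP_rg, card_filter, card_filter, cnt, cnt,
    ← sum_range_reflect _ (40 * L + 2), ← Ico_add_one_right_eq_Icc, sum_Ico_eq_sum_range,
    Nat.add_sub_cancel]
  push_cast
  simp only [zero_add]
  congr 2
  refine sum_congr rfl fun j hj => if_congr ?_ rfl rfl
  have h4 := mem_range.1 hj
  have h5 : -(40 * (L : ℤ) + 2) + ((40 * L + 1 - j : ℕ) : ℤ) - c = -(1 + j + c) := by omega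
  rw [h5, dvd_neg]

/-- The thresholds for a medium prime. -/
def al (L p w : ℕ) : Multiset ℤ :=
  ∑ c ∈ range p, ((-od (Zm L) (Icc 1 (40 * L + 2)) p c - w) / 2).toNat •
    ({(c : ℤ)} : Multiset ℤ)

theorem od_ge (L p : ℕ) (c : ℤ) :
    -(80 * L + 4 : ℤ) ≤ od (Zm L) (Icc 1 (40 * L + 2)) p c := by
  have h := card_filter_le (Icc 1 (40 * L + 2)) fun j : ℕ => (p : ℤ) ∣ (j : ℤ) + c
  rw [Nat.card_Icc] at h
  unfold od
  omega

theorem al_card (L p w : ℕ) : (al L p w).card =
    ∑ c ∈ range p, ((-od (Zm L) (Icc 1 (40 * L + 2)) p c - w) / 2).toNat := by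
  simp [al, Multiset.card_sum]

theorem al_count (L p w : ℕ) {c : ℕ} (hc : c < p) :
    ((-od (Zm L) (Icc 1 (40 * L + 2)) p c - w) / 2).toNat ≤
      (al L p w).countP fun t => (p : ℤ) ∣ t - c := by
  have h : ((-od (Zm L) (Icc 1 (40 * L + 2)) p c - w) / 2).toNat • ({(c : ℤ)} : Multiset ℤ) ≤
      al L p w := single_le_sum (f := fun c : ℕ =>
        ((-od (Zm L) (Icc 1 (40 * L + 2)) p c - w) / 2).toNat • ({(c : ℤ)} : Multiset ℤ))
      (fun _ _ => Multiset.zero_le _) (mem_range.2 hc)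
  refine le_trans ?_ (Multiset.countP_le_of_le _ h)
  rw [Multiset.countP_nsmul, Multiset.countP_eq_card.2 (by simp)]
  simp

theorem al_sum (hs : SqStmt) (L p U : ℕ) (hp : 0 < p) :
    4 * ((∑ w ∈ range U, (al L p w).card : ℕ) : ℤ) ≤ 232 * L + 8 + 2 * Phi L p := by
  simp only [al_card]
  rw [sum_comm, Nat.cast_sum, mul_sum]
  refine (sum_le_sum fun c _ => Z23.MediumP.sum_half_int U _).trans_eq ?_
  simp only [neg_sq]
  exact hs L p hp

end MediumP

open MediumP

theorem sq : SqStmt := by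
  intro L q hq
  have h : ∀ c ∈ range q, od (Zm L) (Icc 1 (40 * L + 2)) q c ^ 2 =
      10 * cnt q (-(40 * L + 2 : ℕ)) (40 * L + 2) c ^ 2 + 15 * cnt q 0 (8 * L) c ^ 2 -
        6 * cnt q (-(40 * L + 2 : ℕ)) (48 * L + 2) c ^ 2 := by
    intro c _
    have h1 := cnt_add q (-(40 * L + 2 : ℕ)) (40 * L + 2) (8 * L) c
    rw [show 40 * L + 2 + 8 * L = 48 * L + 2 by ring, neg_add_cancel] at h1
    rw [od_eq, h1]
    ring
  rw [sum_congr rfl h]
  simp only [sum_add_distrib, sum_sub_distrib, ← mul_sum, one hq, Phi]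
  push_cast
  ring

theorem medium (hl : LinkStmt) (he : EntryStmt) : MediumStmt := by
  intro p hp a b x L h6
  have p0 : 0 < p := hp.out.pos
  refine (Z23.thresh p (mom a b x L) (28 * L + 2) (80 * L + 5) 3 (al L p) ?_
    fun w w' s => ?_).trans (Z23.MediumP.zpow_le p0 ?_)
  · refine sum_eq_zero fun c _ => ?_
    have := od_ge L p c
    rw [show ((-od (Zm L) (Icc 1 (40 * L + 2)) p c - (80 * L + 5 : ℕ)) / 2).toNat = 0 by omega,
      zero_nsmul]
  · rw [hl, ← Z23.Np_add]
    refine (entry_one he p a b x _ _ (-1 - ((w + w') / 2 : ℕ)) (fun j hj => ?_)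
      fun j _ => ?_).trans_eq (by congr 1; ring)
    · have := mem_Icc.1 hj
      omega
    · generalize -(j : ℤ) = c
      have q0 : (0 : ℤ) < p := by exact_mod_cast p0
      have a1 := Int.emod_nonneg c q0.ne'
      have a2 := Int.emod_lt_of_pos c q0
      have a3 : (((c % p).toNat : ℕ) : ℤ) = c % p := Int.toNat_of_nonneg a1
      have a4 : (c % p).toNat < p := by omega
      rw [od_congr _ _ _ (c' := ((c % p).toNat : ℕ)) (by rw [a3]; exact Int.dvd_self_sub_emod),
        od_add, Multiset.countP_add, Multiset.countP_add]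
      have b1 := al_count L p w a4
      have b2 := al_count L p w' a4
      omega
  · have a1 := al_sum sq L p (80 * L + 5) p0
    generalize ∑ w ∈ range (80 * L + 5), (al L p w).card = N at a1
    have b1 : 4 * (N : ℝ) ≤ 232 * L + 8 + 2 * Phi L p := by exact_mod_cast a1
    push_cast
    linarith

end Pool.Agent.MP_807c24_nt.Z34
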