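import Pool.Agent.MP_807c24_nt.Z34.Basic

/-! The determinant is not zero when `26 L + 1` is a prime that does not divide `b`. -/

namespace Pool.Agent.MP_807c24_nt.Z34

open Finset Polynomial
open Pool.Agent.MP_807c24_nt.H13 (pn)
open Pool.Agent.MP_807c24_nt.H13.Class
open Pool.Agent.MP_807c24_nt.D57 (lam hank)
open Pool.Agent.MP_807c24_nt.Z23 (Hh Dp Np rg)

namespace NonzeroP

variable {p : ℕ} [hp : Fact p.Prime]

theorem pn_add_eq {x y : ℚ} (h : pn p y < pn p x) : pn p (x + y) = pn p x := by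
  unfold pn at *
  rw [Rat.cast_add, IsUltrametricDist.norm_add_eq_max_of_norm_ne_norm (ne_of_gt h),
    max_eq_left h.le]

theorem pn_sum_lt {ι : Type} {s : Finset ι} {f : ι → ℚ} {B : ℝ} (hB : 0 < B)
    (h : ∀ i ∈ s, pn p (f i) < B) : pn p (∑ i ∈ s, f i) < B :=
  Finset.sum_induction f (fun x => pn p x < B)
    (fun _ _ hx hy => (pn_add (le_max_left _ _) (le_max_right _ _)).trans_lt (max_lt hx hy))
    (by rwa [pn_zero]) h

theorem pn_div (x y : ℚ) : pn p (x / y) = pn p x / pn p y := by simp [pn]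

theorem one_lt_p : (1 : ℝ) < p := by exact_mod_cast hp.out.one_lt

/-- An integer strictly between two consecutive multiples of `p` is a unit. -/
theorem pn_btw {c : ℤ} (k : ℤ) (h1 : k * p < c) (h2 : c < (k + 1) * p) : pn p (c : ℚ) = 1 := by
  refine pn_unit ?_
  rintro ⟨d, rfl⟩
  have h0 : (0 : ℤ) < p := by exact_mod_cast hp.out.pos
  have e1 : k < d := lt_of_mul_lt_mul_right (by linarith) h0.le
  have e2 : d < k + 1 := lt_of_mul_lt_mul_right (by linarith) h0.le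
  omega

theorem pn_nat_unit {u : ℕ} (h1 : 1 ≤ u) (h2 : u < 2 * p) (h3 : u ≠ p) : pn p (u : ℚ) = 1 := by
  rw [← Int.cast_natCast]
  rcases lt_or_gt_of_ne h3 with h | h
  · exact pn_btw 0 (by omega) (by omega)
  · exact pn_btw 1 (by omega) (by omega)

theorem pn_frac (c : ℤ) {u : ℚ} (hu : pn p u = 1) (k : ℕ) : pn p ((c : ℚ) / u ^ k) ≤ 1 := by
  rw [pn_div, pn_pow, hu, one_pow, div_one]
  exact pn_int c

theorem Hh_le (a b : ℤ) {j : ℕ} (hj : j ≤ p) : pn p (Hh a b j) ≤ 1 :=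
  pn_sum zero_le_one fun u hu => by
    have h := mem_Ico.1 hu
    have hu : pn p (u : ℚ) = 1 := pn_nat_unit h.1 (by omega) (by omega)
    exact pn_add (pn_frac a hu 2) (pn_frac b hu 3)

theorem H2_le (a b : ℤ) {j : ℕ} (hj : j ≤ p) : pn p (H2 a b j) ≤ 1 :=
  pn_sum zero_le_one fun u hu => by
    have h := mem_Ico.1 hu
    have hu : pn p (u : ℚ) = 1 := pn_nat_unit h.1 (by omega) (by omega)
    have h1 := pn_frac (2 * a) hu 3
    have h2 := pn_frac (3 * b) hu 4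
    push_cast at h1 h2
    exact pn_add h1 h2

theorem Hh_eq (a : ℤ) {b : ℤ} (hb : ¬(p : ℤ) ∣ b) {J : ℕ} (h1 : p < J) (h2 : J ≤ 2 * p) :
    pn p (Hh a b J) = (p : ℝ) ^ 3 := by
  have hp1 := one_lt_p (p := p)
  have e3 : pn p ((b : ℚ) / (p : ℚ) ^ 3) = (p : ℝ) ^ 3 := by
    rw [pn_div, pn_pow, pn_p, pn_unit hb, inv_pow, one_div, inv_inv]
  have e2 : pn p ((a : ℚ) / (p : ℚ) ^ 2) < (p : ℝ) ^ 3 := by
    rw [pn_div, pn_pow, pn_p, inv_pow, div_inv_eq_mul]
    exact (mul_le_of_le_one_left (by positivity) (pn_int a)).trans_lt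
      (pow_lt_pow_right₀ hp1 (by norm_num))
  have e1 : pn p ((a : ℚ) / (p : ℚ) ^ 2 + (b : ℚ) / (p : ℚ) ^ 3) = (p : ℝ) ^ 3 := by
    rw [add_comm, pn_add_eq (by rwa [e3]), e3]
  rw [Hh, ← add_sum_erase _ _ (mem_Ico.2 ⟨hp.out.one_le, h1⟩), pn_add_eq, e1]
  rw [e1]
  refine (pn_sum zero_le_one fun u hu => ?_).trans_lt (one_lt_pow₀ hp1 (by norm_num))
  have h := mem_erase.1 hu
  have h' := mem_Ico.1 h.2
  have hu : pn p (u : ℚ) = 1 := pn_nat_unit h'.1 (by omega) h.1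
  exact pn_add (pn_frac a hu 2) (pn_frac b hu 3)

/-- Products of linear factors with integer roots. -/
def IsN (N : ℚ[X]) : Prop := ∃ M, N = Np M

theorem IsN.mul {N N' : ℚ[X]} (h : IsN N) (h' : IsN N') : IsN (N * N') := by
  obtain ⟨M, rfl⟩ := h
  obtain ⟨M', rfl⟩ := h'
  exact ⟨M + M', (Z23.Np_add _ _).symm⟩

theorem IsN.pow {N : ℚ[X]} (h : IsN N) (k : ℕ) : IsN (N ^ k) := by
  obtain ⟨M, rfl⟩ := h
  exact ⟨k • M, (Z23.Np_nsmul _ _).symm⟩

theorem lin_eq (j : ℕ) : (X + C (j : ℚ) : ℚ[X]) = Np {-(j : ℤ)} := by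
  rw [Z23.Np_singleton]
  simp

theorem isN_lin (j : ℕ) : IsN (X + C (j : ℚ)) := ⟨_, lin_eq j⟩

theorem isN_Dp (S : Finset ℕ) : IsN (Dp S) := ⟨_, Z23.Dp_eq S⟩

theorem isN_Np (M : Multiset ℤ) : IsN (Np M) := ⟨_, rfl⟩

theorem Dp_erase {S : Finset ℕ} {j : ℕ} (h : j ∈ S) :
    Dp S = (X + C (j : ℚ)) * Dp (S.erase j) :=
  (mul_prod_erase S (fun j : ℕ => (X + C (j : ℚ) : ℚ[X])) h).symm

theorem Dp_eval (S : Finset ℕ) (J : ℕ) :
    (Dp S).eval (-(J : ℚ)) = ∏ i ∈ S, (((i : ℤ) - J : ℤ) : ℚ) := by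
  rw [Dp, eval_prod]
  refine prod_congr rfl fun i _ => ?_
  simp only [eval_add, eval_X, eval_C]
  push_cast
  ring

omit hp in
theorem cls_one (c : ℤ) : ((Icc 1 p).filter fun j : ℕ => (p : ℤ) ∣ (j : ℤ) + c).card ≤ 1 := by
  refine card_le_one.2 fun i hi j hj => ?_
  obtain ⟨hi, h1⟩ := mem_filter.1 hi
  obtain ⟨hj, h2⟩ := mem_filter.1 hj
  have hi := mem_Icc.1 hi
  have hj := mem_Icc.1 hj
  have h3 : (p : ℤ) ∣ (i : ℤ) - j := by
    rw [show (i : ℤ) - j = i + c - (j + c) by ring]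
    exact dvd_sub h1 h2
  have := Int.eq_zero_of_abs_lt_dvd h3 (abs_lt.2 ⟨by omega, by omega⟩)
  omega

omit hp in
theorem od_four (M : Multiset ℤ) (J : ℕ) (c : ℤ) : -4 ≤ od M (insert J (Icc 1 p)) p c := by
  have h1 := cls_one (p := p) c
  have h2 : ((insert J (Icc 1 p)).filter fun j : ℕ => (p : ℤ) ∣ (j : ℤ) + c).card ≤ 2 := by
    rw [filter_insert]
    split_ifs
    · exact (card_insert_le _ _).trans (by omega)
    · omega
  unfold od
  omega

omit hp in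
theorem od_three (M : Multiset ℤ) (J : ℕ) (c : ℤ) :
    -3 ≤ od (M + {-(J : ℤ)}) (insert J (Icc 1 p)) p c := by
  rw [od_add]
  by_cases h : (p : ℤ) ∣ (J : ℤ) + c
  · have h1 := od_four (p := p) M J c
    have h2 : ({-(J : ℤ)} : Multiset ℤ).countP (fun t => (p : ℤ) ∣ t - c) ≠ 0 := by
      rw [Ne, Multiset.countP_eq_zero]
      refine fun h' => h' _ (Multiset.mem_singleton_self _) ?_
      rw [show -(J : ℤ) - c = -(J + c) by ring]
      exact dvd_neg.2 h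
    omega
  · have h1 := cls_one (p := p) c
    unfold od
    rw [filter_insert, if_neg h]
    omega

theorem rng {J : ℕ} (h1 : p < J) (h2 : J ≤ 2 * p) :
    ∀ i ∈ insert J (Icc 1 p), 1 ≤ i ∧ i ≤ p ^ 2 := fun i hi => by
  have h3 : 2 * p ≤ p ^ 2 := by
    rw [sq]
    exact Nat.mul_le_mul_right p hp.out.two_le
  rcases mem_insert.1 hi with rfl | hi
  · omega
  · have := mem_Icc.1 hi
    omega

theorem E_eq {J : ℕ} (h1 : p < J) (h2 : J ≤ 2 * p) :
    pn p ((Dp (Icc 1 p)).eval (-(J : ℚ))) = (p : ℝ)⁻¹ := by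
  have hm : J - p ∈ Icc 1 p := mem_Icc.2 ⟨by omega, by omega⟩
  rw [Dp_eval, pn_prod, ← mul_prod_erase _ _ hm, prod_eq_one, mul_one,
    show ((J - p : ℕ) : ℤ) - J = -p by omega]
  · push_cast
    rw [pn_neg, pn_p]
  · intro i hi
    have h3 := mem_erase.1 hi
    have h4 := mem_Icc.1 h3.2
    rcases lt_or_gt_of_ne h3.1 with h | h
    · exact pn_btw (-2) (by omega) (by omega)
    · exact pn_btw (-1) (by omega) (by omega)

/-- The dominant entry. -/
theorem main (hr : ResStmt) (a x : ℤ) {b : ℤ} (hb : ¬(p : ℤ) ∣ b) {J : ℕ} (h1 : p < J)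
    (h2 : J ≤ 2 * p) {W : ℚ[X]} (hW : IsN W) (hw : pn p (W.eval (-(J : ℚ))) = 1) :
    pn p (Mu a b x (insert J (Icc 1 p)) (W * (X + C (J : ℚ)))) = (p : ℝ) ^ 5 := by
  have hp1 := one_lt_p (p := p)
  have hJ : J ∉ Icc 1 p := fun h => by
    have := mem_Icc.1 h
    omega
  have e1 : ra (insert J (Icc 1 p)) (W * (X + C (J : ℚ))) J = 0 := by simp [ra]
  have e2 : rc (insert J (Icc 1 p)) (W * (X + C (J : ℚ))) J =
      W.eval (-(J : ℚ)) / (Dp (Icc 1 p)).eval (-(J : ℚ)) ^ 2 := by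
    rw [rc, erase_insert hJ]
    simp
  have e3 : pn p (ra (insert J (Icc 1 p)) (W * (X + C (J : ℚ))) J * (x - H2 a b J) -
      rc (insert J (Icc 1 p)) (W * (X + C (J : ℚ))) J * Hh a b J) = (p : ℝ) ^ 5 := by
    rw [e1, e2, zero_mul, zero_sub, pn_neg, pn_mul, pn_div, pn_pow, hw, E_eq h1 h2, Hh_eq a hb h1 h2,
      inv_pow, one_div, inv_inv]
    ring
  rw [Mu, sum_insert hJ, pn_add_eq, e3]
  rw [e3]
  obtain ⟨M, rfl⟩ := hW
  rw [lin_eq, ← Z23.Np_add]
  refine (pn_sum (B := (p : ℝ) ^ 2) (by positivity) fun j hj => ?_).trans_lt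
    (pow_lt_pow_right₀ hp1 (by norm_num))
  have hj' := (mem_Icc.1 hj).2
  obtain ⟨r1, r2⟩ := hr p _ (M + {-(J : ℤ)}) 1 j (mem_insert_of_mem hj) (rng h1 h2)
  have ho := od_three (p := p) M J (-(j : ℤ))
  rw [Icc_self, sum_singleton, pow_one] at r1 r2
  have hz : ∀ z : ℤ, z ≤ 2 → (p : ℝ) ^ z ≤ (p : ℝ) ^ 2 := fun z hz => by
    exact_mod_cast zpow_le_zpow_right₀ hp1.le hz
  refine pn_sub ?_ ?_
  · simpa using pn_mul_le (r1.trans (hz _ (by omega))) (pn_sub (pn_int x) (H2_le a b hj'))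
  · simpa using pn_mul_le (r2.trans (hz _ (by omega))) (Hh_le a b hj')

end NonzeroP

open NonzeroP

theorem dom : DomStmt := by
  intro p _ ι _ _ G σ r s hr hs h1 h2 h0
  have hR : 0 < ∏ i, r i * s (σ i) := prod_pos fun i _ => mul_pos (hr i) (hs _)
  have hu : ∀ τ : Equiv.Perm ι, pn p ((Equiv.Perm.sign τ : ℤ) : ℚ) = 1 := fun τ => by
    rcases Int.units_eq_one_or (Equiv.Perm.sign τ) with e | e <;> rw [e]
    · simpa using pn_one
    · simpa [pn_neg] using pn_one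
  have e1 : pn p (((Equiv.Perm.sign σ : ℤ) : ℚ) * ∏ i, G.transpose (σ i) i) =
      ∏ i, r i * s (σ i) := by
    rw [pn_mul, hu, one_mul, pn_prod]
    exact prod_congr rfl fun i _ => h1 i
  rw [← Matrix.det_transpose, Matrix.det_apply', ← add_sum_erase _ _ (mem_univ σ)] at h0
  have e2 := congrArg (pn p) h0
  rw [pn_add_eq, e1, pn_zero] at e2
  · exact hR.ne' e2
  rw [e1]
  refine pn_sum_lt hR fun τ hτ => ?_
  rw [pn_mul, hu, one_mul, pn_prod, prod_mul_distrib, Equiv.prod_comp σ s, ← Equiv.prod_comp τ s,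
    ← prod_mul_distrib]
  obtain ⟨i, hi⟩ : ∃ i, τ i ≠ σ i := by
    by_contra h
    exact (mem_erase.1 hτ).1 (Equiv.ext fun i => by_contra fun h' => h ⟨i, h'⟩)
  have hle : ∀ i, pn p (G i (τ i)) ≤ r i * s (τ i) := fun i => by
    by_cases h : τ i = σ i
    · rw [h, h1]
    · exact (h2 i _ h).le
  rw [← mul_prod_erase _ _ (mem_univ i), ← mul_prod_erase _ _ (mem_univ i)]
  exact (mul_le_mul_of_nonneg_left (prod_le_prod (fun _ _ => pn_nonneg _) fun i _ => hle i)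
    (pn_nonneg _)).trans_lt (mul_lt_mul_of_pos_right (h2 i _ hi)
      (prod_pos fun i _ => mul_pos (hr i) (hs _)))

theorem nonzero (hl : LinkStmt) (hc : CancelStmt) (hr : ResStmt) (he : EntryStmt) :
    NonzeroStmt := by
  intro p hp a b x L hL hb
  have hp1 := one_lt_p (p := p)
  have hp0 := p_pos (p := p)
  obtain ⟨T, hT⟩ : ∃ T, T = Ioc p (40 * L + 2) := ⟨_, rfl⟩
  have mT : ∀ j, j ∈ T ↔ p < j ∧ j ≤ 40 * L + 2 := fun j => by rw [hT, mem_Ioc]
  have cT : T.card = 14 * L + 1 := by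
    rw [hT, Nat.card_Ioc]
    omega
  have TS : T ⊆ Icc 1 (40 * L + 2) := fun j hj => by
    have := (mT j).1 hj
    exact mem_Icc.2 ⟨by omega, this.2⟩
  have lemA : ∀ N : ℚ[X], IsN N → pn p (Mu a b x (Icc 1 (40 * L + 2)) (Dp T ^ 2 * N)) ≤ 1 := by
    rintro _ ⟨M, rfl⟩
    rw [hc a b x _ T _ TS]
    refine entry_zero he p a b x _ M fun i hi => ?_
    have h1 := mem_Icc.1 (mem_sdiff.1 hi).1
    have h2 := mt (mT i).2 (mem_sdiff.1 hi).2
    omega
  have lemB : ∀ J ∈ T, ∀ N : ℚ[X], Mu a b x (Icc 1 (40 * L + 2)) (Dp (T.erase J) ^ 2 * N) =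
      Mu a b x (insert J (Icc 1 p)) N := fun J hJ N => by
    rw [hc a b x _ _ _ ((erase_subset _ _).trans TS)]
    congr 1
    ext i
    have := (mT J).1 hJ
    simp only [mem_sdiff, mem_erase, mem_insert, mem_Icc, mT]
    omega
  have hw : ∀ J ∈ T, pn p ((Np (Zm L) * Dp (T.erase J) ^ 2).eval (-(J : ℚ))) = 1 := fun J hJ => by
    have hJ' := (mT J).1 hJ
    rw [eval_mul, eval_pow, pn_mul, pn_pow, Dp_eval, pn_prod, prod_eq_one, Zm, Z23.Np_nsmul,
      Z23.Np_rg, eval_pow, eval_prod, pn_pow, pn_prod, prod_eq_one]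
    · simp
    · intro t ht
      have ht := mem_range.1 ht
      rw [← pn_btw (p := p) (c := -(J : ℤ) - t) (-2) (by omega) (by omega)]
      simp
    · intro i hi
      have h3 := mem_erase.1 hi
      have h4 := (mT i).1 h3.2
      rcases lt_or_gt_of_ne h3.1 with h | h
      · exact pn_btw (-1) (by omega) (by omega)
      · exact pn_btw 0 (by omega) (by omega)
  have nW : ∀ J, IsN (Np (Zm L) * Dp (T.erase J) ^ 2) := fun J =>
    (isN_Np _).mul ((isN_Dp _).pow 2)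
  have mid : ∀ J ∈ T, pn p (Mu a b x (Icc 1 (40 * L + 2)) (Dp (T.erase J) ^ 2 *
      (Np (Zm L) * Dp (T.erase J) ^ 2 * (X + C (J : ℚ))))) = (p : ℝ) ^ 5 := fun J hJ => by
    have hJ' := (mT J).1 hJ
    rw [lemB J hJ]
    exact main hr a x hb hJ'.1 (by omega) (nW J) (hw J hJ)
  refine D57.gramNe ℚ _ _ (T × Fin 2)
    (fun u => Dp (T.erase u.1) ^ 2 * (X + C ((u.1 : ℕ) : ℚ)) ^ (u.2 : ℕ)) ?_ (fun u => ?_) ?_
  · rw [Fintype.card_prod, Fintype.card_coe, cT, Fintype.card_fin]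
    ring
  · have h1 := u.2.2
    rw [((Z23.Dp_monic _).pow 2).natDegree_mul ((monic_X_add_C _).pow _), natDegree_pow,
      natDegree_pow, Z23.Dp_natDegree, natDegree_X_add_C, card_erase_of_mem u.1.2, cT]
    omega
  refine dom p _ _ (Equiv.prodCongr (Equiv.refl _) Fin.revPerm)
    (fun u => (p : ℝ) ^ (4 - 2 * (u.2 : ℕ))) (fun u => (p : ℝ) ^ (3 - 2 * (u.2 : ℕ)))
    (fun _ => by positivity) (fun _ => by positivity) ?_ ?_
  · rintro ⟨J, i⟩
    rw [Matrix.of_apply, hl, ← pow_add]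
    have h := mid J J.2
    fin_cases i
    · refine Eq.trans ?_ h
      refine congrArg (fun N => pn p (Mu a b x (Icc 1 (40 * L + 2)) N)) ?_
      simp [Fin.rev]
      ring
    · refine Eq.trans ?_ h
      refine congrArg (fun N => pn p (Mu a b x (Icc 1 (40 * L + 2)) N)) ?_
      simp [Fin.rev]
      ring
  · rintro ⟨J, i⟩ ⟨J', i'⟩ hne
    rw [Matrix.of_apply, hl, ← pow_add]
    have hi := i.2
    have hi' := i'.2
    have big : (1 : ℝ) < (p : ℝ) ^ (4 - 2 * (i : ℕ) + (3 - 2 * (i' : ℕ))) :=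
      one_lt_pow₀ hp1 (by omega)
    by_cases hJ : J = J'
    swap
    · refine lt_of_le_of_lt (le_of_eq_of_le ?_ (lemA (Np (Zm L) * ((X + C ((J : ℕ) : ℚ)) ^ (i : ℕ) *
        Dp ((T.erase J').erase J) ^ 2 * (X + C ((J' : ℕ) : ℚ)) ^ (i' : ℕ)))
        ((isN_Np _).mul ((((isN_lin _).pow _).mul ((isN_Dp _).pow 2)).mul
          ((isN_lin _).pow _))))) big
      refine congrArg (fun N => pn p (Mu a b x (Icc 1 (40 * L + 2)) N)) ?_
      dsimp only
      rw [Dp_erase J.2, Dp_erase (S := T.erase J') (j := J)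
        (mem_erase.2 ⟨fun e => hJ (Subtype.ext e), J.2⟩)]
      ring
    subst hJ
    have hJ' := (mT J).1 J.2
    fin_cases i <;> fin_cases i'
    · obtain ⟨M, hM⟩ := nW J
      have h := entry_one he p a b x _ M (-4) (rng hJ'.1 (by omega)) fun j _ => od_four M J _
      rw [← hM, ← lemB J J.2] at h
      refine lt_of_le_of_lt (le_of_eq_of_le ?_ h) ?_
      · refine congrArg (fun N => pn p (Mu a b x (Icc 1 (40 * L + 2)) N)) ?_
        simp
        ring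
      · exact_mod_cast zpow_lt_zpow_right₀ hp1 (show (2 - -4 : ℤ) < 7 by norm_num)
    · exact absurd rfl hne
    · exact absurd rfl hne
    · refine lt_of_le_of_lt (le_of_eq_of_le ?_ (lemA _ (nW J))) big
      refine congrArg (fun N => pn p (Mu a b x (Icc 1 (40 * L + 2)) N)) ?_
      rw [Dp_erase J.2]
      simp
      ring

end Pool.Agent.MP_807c24_nt.Z34
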