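import Pool.Agent.MP_807c24_nt.Z34.Basic
import Pool.Agent.MP_807c24_nt.Z23.Phi

/-! The numerical inequality on the line. -/

namespace Pool.Agent.MP_807c24_nt.Z34

open Finset
open Pool.Agent.MP_807c24_nt.Z23.PhiP (exp_ge alg)

namespace PhiP

/-- Numerator cell. -/
def cn (a k : ℕ) : ℕ := ((480 - 64 * a) ^ 2 + k ^ 2 + 1024) ^ 3

/-- Denominator cell. -/
def cd (a j : ℕ) : ℕ := ((544 + 64 * a) ^ 2 + j ^ 2 - 1024) ^ 2

/-- Bound for one root factor. -/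
def QI (s j k : ℕ) : ℕ := max (ro s ^ 2 - j ^ 2) (k ^ 2 - ro s ^ 2)

/-- One interval. -/
def step (j k : ℕ) : Bool :=
  (List.range 15).all fun s =>
    decide ((∏ a ∈ range 8, cn a k) * 4096 ^ 56 * (∏ s' ∈ range s, QI s' j k ^ 4) * (10 ^ 5) ^ j *
      27182818286 ^ be s ≤ (∏ a ∈ range 40, cd a j) * (4096 ^ 4) ^ s * 121683 ^ j * (10 ^ 10) ^ be s)

/-- All intervals. -/
def chk : ℕ → List ℕ → Bool
  | j, [] => decide (2432 ≤ j)
  | j, k :: l => step j k && chk k l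

/-- Break points. -/
def bps : List ℕ :=
  [22, 33, 44, 57, 71, 82, 91, 101, 117, 131, 141, 150, 160, 175, 192, 203, 212, 220, 229, 240, 257,
    277, 294, 307, 317, 326, 335, 345, 356, 371, 389, 403, 414, 424, 435, 449, 464, 480, 494, 505,
    515, 525, 536, 550, 568, 586, 599, 610, 621, 632, 644, 658, 673, 689, 707, 728, 746, 762, 776,
    790, 805, 820, 834, 848, 863, 879, 897, 919, 944, 975, 1015, 1070, 1153, 1296, 1594, 2432]

theorem chk_bps : chk 0 bps = true := by decide +kernel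

theorem cn_cast {a : ℕ} (ha : a < 8) (k : ℕ) : (cn a k : ℝ) =
    ((15 / 2 - (a : ℝ)) ^ 2 + ((k : ℝ) / 64) ^ 2 + 1 / 4) ^ 3 * 4096 ^ 3 := by
  unfold cn
  rw [Nat.cast_pow, Nat.cast_add, Nat.cast_add, Nat.cast_pow, Nat.cast_sub (by omega), ← mul_pow]
  congr 1
  push_cast
  ring

theorem cd_cast (a j : ℕ) : (cd a j : ℝ) =
    ((17 / 2 + (a : ℝ)) ^ 2 + ((j : ℝ) / 64) ^ 2 - 1 / 4) ^ 2 * 4096 ^ 2 := by
  unfold cd
  rw [Nat.cast_pow, Nat.cast_sub (by nlinarith [Nat.zero_le a, Nat.zero_le j]), ← mul_pow]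
  congr 1
  push_cast
  ring

theorem den_pos (a : ℕ) (η : ℝ) : 0 < (17 / 2 + (a : ℝ)) ^ 2 + η ^ 2 - 1 / 4 := by
  have ha : (0 : ℝ) ≤ a := Nat.cast_nonneg a
  nlinarith [sq_nonneg η]

theorem cd_pos (a j : ℕ) : (0 : ℝ) < cd a j := by
  rw [cd_cast]
  exact mul_pos (pow_pos (den_pos a _) _) (by norm_num)

theorem WW_le (j k : ℕ) {η : ℝ} (h1 : (j : ℝ) / 64 ≤ η) (h2 : η ≤ (k : ℝ) / 64) :
    WW η ≤ (∏ a ∈ range 8, (cn a k : ℝ)) * 4096 ^ 56 / ∏ a ∈ range 40, (cd a j : ℝ) := by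
  have hj : (0 : ℝ) ≤ (j : ℝ) / 64 := by positivity
  have h0 : 0 ≤ η := hj.trans h1
  rw [prod_congr rfl fun a ha => cn_cast (mem_range.1 ha) k]
  simp only [cd_cast, prod_mul_distrib, prod_const, card_range]
  rw [← pow_mul, ← pow_mul, mul_assoc, ← pow_add, mul_div_mul_right _ _ (by positivity)]
  refine div_le_div₀ (prod_nonneg fun _ _ => by positivity)
    (prod_le_prod (fun _ _ => by positivity) fun a _ => ?_)
    (prod_pos fun a _ => pow_pos (den_pos a _) _)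
    (prod_le_prod (fun a _ => sq_nonneg _) fun a _ => ?_)
  · gcongr
  · refine pow_le_pow_left₀ (den_pos a _).le ?_ 2
    gcongr

theorem QQ_le (s j k : ℕ) {η : ℝ} (h1 : (j : ℝ) / 64 ≤ η) (h2 : η ≤ (k : ℝ) / 64) :
    (((ro s : ℝ) / 64) ^ 2 - η ^ 2) ^ 4 ≤ (QI s j k : ℝ) ^ 4 / 4096 ^ 4 := by
  have hj : (0 : ℝ) ≤ (j : ℝ) / 64 := by positivity
  have h0 : 0 ≤ η := hj.trans h1
  have a1 : ((j : ℝ) / 64) ^ 2 ≤ η ^ 2 := pow_le_pow_left₀ hj h1 2
  have a2 : η ^ 2 ≤ ((k : ℝ) / 64) ^ 2 := pow_le_pow_left₀ h0 h2 2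
  have b1 : ro s ^ 2 ≤ QI s j k + j ^ 2 := by
    have := le_max_left (ro s ^ 2 - j ^ 2) (k ^ 2 - ro s ^ 2)
    unfold QI
    omega
  have b2 : k ^ 2 ≤ QI s j k + ro s ^ 2 := by
    have := le_max_right (ro s ^ 2 - j ^ 2) (k ^ 2 - ro s ^ 2)
    unfold QI
    omega
  have c1 : (ro s : ℝ) ^ 2 ≤ QI s j k + (j : ℝ) ^ 2 := by exact_mod_cast b1
  have c2 : (k : ℝ) ^ 2 ≤ QI s j k + (ro s : ℝ) ^ 2 := by exact_mod_cast b2
  rw [← div_pow, ← (by decide : Even 4).pow_abs]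
  refine pow_le_pow_left₀ (abs_nonneg _) (abs_le.2 ⟨?_, ?_⟩) 4
  · rw [div_pow] at a2 ⊢
    linarith
  · rw [div_pow] at a1 ⊢
    linarith

theorem of_step {j k : ℕ} (h : step j k = true) {s : ℕ} (hs : s ≤ 14) {η : ℝ}
    (h1 : (j : ℝ) / 64 ≤ η) (h2 : η ≤ (k : ℝ) / 64) :
    WW η * ∏ s' ∈ range s, (((ro s' : ℝ) / 64) ^ 2 - η ^ 2) ^ 4 ≤
      Real.exp (-(be s : ℝ) + 314 / 25 * η) := by
  have h4 := List.all_eq_true.1 h s (List.mem_range.2 (by omega))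
  rw [decide_eq_true_eq] at h4
  have h6 : (∏ a ∈ range 8, (cn a k : ℝ)) * 4096 ^ 56 * (∏ s' ∈ range s, (QI s' j k : ℝ) ^ 4) *
      (10 ^ 5) ^ j * 27182818286 ^ be s ≤
      (∏ a ∈ range 40, (cd a j : ℝ)) * (4096 ^ 4) ^ s * 121683 ^ j * (10 ^ 10) ^ be s := by
    have := (Nat.cast_le (α := ℝ)).2 h4
    simpa only [Nat.cast_mul, Nat.cast_pow, Nat.cast_ofNat, Nat.cast_prod] using this
  have h7 := alg (prod_pos fun a _ => cd_pos a j) (by positivity) (by positivity) (by positivity)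
    (by positivity) h6
  rw [← div_pow, ← div_pow] at h7
  have h9 : ∏ s' ∈ range s, (((ro s' : ℝ) / 64) ^ 2 - η ^ 2) ^ 4 ≤
      (∏ s' ∈ range s, (QI s' j k : ℝ) ^ 4) / (4096 ^ 4) ^ s := by
    rw [show ((4096 : ℝ) ^ 4) ^ s = ∏ _s' ∈ range s, ((4096 : ℝ) ^ 4) by
      rw [prod_const, card_range], ← prod_div_distrib]
    exact prod_le_prod (fun a _ => by positivity) fun a _ => QQ_le a j k h1 h2
  refine (mul_le_mul (WW_le j k h1 h2) h9 (prod_nonneg fun _ _ => by positivity)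
    (div_nonneg (mul_nonneg (prod_nonneg fun _ _ => Nat.cast_nonneg _) (by positivity))
      (prod_nonneg fun _ _ => Nat.cast_nonneg _))).trans
    (h7.trans ((exp_ge j _).trans (Real.exp_le_exp.2 (by linarith))))

theorem l_le (s : ℕ) : ro s ≤ 725 ∧ be s ≤ 463 := by
  by_cases h : s < 15
  · interval_cases s <;> decide
  · obtain ⟨t, rfl⟩ : ∃ t, s = t + 15 := ⟨s - 15, by omega⟩
    simp [ro, be]

theorem WW_mul_le_one (η : ℝ) : WW η * (η ^ 2 + 72) ^ 56 ≤ 1 := by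
  have h1 : ∏ a ∈ range 8, ((15 / 2 - (a : ℝ)) ^ 2 + η ^ 2 + 1 / 4) ^ 3 ≤ (η ^ 2 + 72) ^ 24 := by
    refine (prod_le_prod (fun _ _ => by positivity) (g := fun _ => (η ^ 2 + 72) ^ 3)
      fun a ha => ?_).trans ?_
    · have ha' : (a : ℝ) ≤ 7 := by
        have := mem_range.1 ha
        exact_mod_cast (show a ≤ 7 by omega)
      have ha0 : (0 : ℝ) ≤ a := by positivity
      exact pow_le_pow_left₀ (by positivity) (by nlinarith) _
    · rw [prod_const, card_range, ← pow_mul]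
  have h2 : (η ^ 2 + 72) ^ 80 ≤ ∏ a ∈ range 40, ((17 / 2 + (a : ℝ)) ^ 2 + η ^ 2 - 1 / 4) ^ 2 := by
    refine le_trans ?_ (prod_le_prod (f := fun _ => (η ^ 2 + 72) ^ 2) (fun _ _ => by positivity)
      fun a _ => ?_)
    · rw [prod_const, card_range, ← pow_mul]
    · have ha0 : (0 : ℝ) ≤ a := by positivity
      exact pow_le_pow_left₀ (by positivity) (by nlinarith) _
  rw [WW, div_mul_eq_mul_div]
  refine div_le_one_of_le₀ (le_trans ?_ h2) (prod_nonneg fun a _ => sq_nonneg _)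
  rw [show 80 = 24 + 56 from rfl, pow_add]
  exact mul_le_mul_of_nonneg_right h1 (by positivity)

theorem tail {s : ℕ} (hs : s ≤ 14) {η : ℝ} (h : 38 ≤ η) :
    WW η * ∏ s' ∈ range s, (((ro s' : ℝ) / 64) ^ 2 - η ^ 2) ^ 4 ≤
      Real.exp (-(be s : ℝ) + 314 / 25 * η) := by
  have h0 : 0 < η := by linarith
  have h3 : ∏ s' ∈ range s, (((ro s' : ℝ) / 64) ^ 2 - η ^ 2) ^ 4 ≤ (η ^ 2 + 72) ^ 56 := by
    refine (prod_le_prod (fun _ _ => by positivity) (g := fun _ => (η ^ 2 + 72) ^ 4)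
      fun a _ => ?_).trans ?_
    · have a1 : (ro a : ℝ) ≤ 725 := by exact_mod_cast (l_le a).1
      have a3 : (0 : ℝ) ≤ (ro a : ℝ) / 64 := by positivity
      have a4 : ((ro a : ℝ) / 64) ^ 2 ≤ η ^ 2 := pow_le_pow_left₀ a3 (by linarith) 2
      rw [← (by decide : Even 4).pow_abs]
      refine pow_le_pow_left₀ (abs_nonneg _) (abs_le.2 ⟨?_, ?_⟩) 4
      · linarith [sq_nonneg ((ro a : ℝ) / 64)]
      · linarith [sq_nonneg η]
    · rw [prod_const, card_range, ← pow_mul]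
      exact pow_le_pow_right₀ (by linarith [sq_nonneg η]) (by omega)
  have h7 : (be s : ℝ) ≤ 463 := by exact_mod_cast (l_le s).2
  have hW : 0 ≤ WW η :=
    div_nonneg (prod_nonneg fun _ _ => by positivity) (prod_nonneg fun a _ => sq_nonneg _)
  exact (mul_le_mul_of_nonneg_left h3 hW).trans
    ((WW_mul_le_one η).trans (Real.one_le_exp (by linarith)))

theorem chk_nil (j : ℕ) : chk j [] = decide (2432 ≤ j) := rfl

theorem chk_cons (j k : ℕ) (l : List ℕ) : chk j (k :: l) = (step j k && chk k l) := rfl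

theorem of_chk {s : ℕ} (hs : s ≤ 14) (l : List ℕ) : ∀ j : ℕ, chk j l = true → ∀ η : ℝ,
    (j : ℝ) / 64 ≤ η →
    WW η * ∏ s' ∈ range s, (((ro s' : ℝ) / 64) ^ 2 - η ^ 2) ^ 4 ≤
      Real.exp (-(be s : ℝ) + 314 / 25 * η) := by
  induction l with
  | nil =>
    intro j h η h1
    rw [chk_nil, decide_eq_true_eq] at h
    have : (2432 : ℝ) ≤ j := by exact_mod_cast h
    exact tail hs (by linarith)
  | cons k l ih =>
    intro j h η h1
    rw [chk_cons, Bool.and_eq_true] at h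
    rcases le_total η ((k : ℝ) / 64) with h2 | h2
    · exact of_step h.1 hs h1 h2
    · exact ih k h.2 η h2

end PhiP

theorem phi : PhiStmt := fun _ hs η hη => PhiP.of_chk hs _ 0 PhiP.chk_bps η (by simpa using hη)

end Pool.Agent.MP_807c24_nt.Z34
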