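import Pool.Agent.MP_807c24_nt.Z34.Basic
import Pool.Agent.MP_807c24_nt.D57.Prime
import Pool.Agent.MP_807c24_nt.D57.Super
import Pool.Agent.MP_807c24_nt.D57.Sq
import Pool.Agent.MP_807c24_nt.H13.Pnt
import Pool.Agent.MP_807c24_nt.H13.Newman

/-!
The sum over the primes.
-/

namespace Pool.Agent.MP_807c24_nt.Z34

open Finset Filter
open Pool.Agent.MP_807c24_nt.D57 (psi SS TT TH psiB)
open Pool.Agent.MP_807c24_nt.D57.Prime (psi_zero psi_two filt tail win sup logs)

namespace Prime76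

/-- The combination that comes from the superfactorials. -/
noncomputable def Ps (L q : ℕ) : ℝ :=
  5 * (psi (40 * L + 2) q : ℝ) + 15 / 2 * psi (8 * L) q - 3 * psi (48 * L + 2) q

/-- Its sum over the powers of `p`. -/
noncomputable def AA (L p : ℕ) : ℝ := ∑ a ∈ Icc 1 (Nat.log p (48 * L + 2)), Ps L (p ^ a)

theorem sum_AA (L : ℕ) :
    ∑ p ∈ (range (48 * L + 2 + 1)).filter Nat.Prime, AA L p * Real.log p =
      5 * SS (40 * L + 2) + 15 / 2 * SS (8 * L) - 3 * SS (48 * L + 2) := by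
  rw [D57.fact (40 * L + 2) (48 * L + 2) (by omega), D57.fact (8 * L) (48 * L + 2) (by omega),
    D57.fact (48 * L + 2) (48 * L + 2) (by omega), mul_sum, mul_sum, mul_sum, ← sum_add_distrib,
    ← sum_sub_distrib]
  refine sum_congr rfl fun p _ => ?_
  simp only [AA, Ps, sum_sub_distrib, sum_add_distrib, ← mul_sum]
  ring

theorem ps_lo {L q : ℕ} (hL : 1 ≤ L) (hq : 2 ≤ q) (hq' : q ≤ 48 * L + 2) :
    (28 * L + 2) * (28 * L + 3) * (1 / (q : ℝ)) ≤ Ps L q + 94 * L := by
  have a1 := (psiB (40 * L + 2) q (by omega)).1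
  have a2 := (psiB (8 * L) q (by omega)).1
  have a3 := (psiB (48 * L + 2) q (by omega)).2
  have b0 : (1 : ℝ) ≤ L := by exact_mod_cast hL
  have b1 : (2 : ℝ) ≤ q := by exact_mod_cast hq
  have b2 : (q : ℝ) ≤ 48 * L + 2 := by exact_mod_cast hq'
  have e : ∀ y : ℝ, y / (2 * q) = y * (1 / q) / 2 := fun y => by ring
  have b3 := mul_le_mul_of_nonneg_left (one_div_le_one_div_of_le two_pos b1)
    (show (0 : ℝ) ≤ 28 * L + 2 by positivity)
  rw [e] at a1 a2 a3
  rw [Ps]
  push_cast at a1 a2 a3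
  generalize 1 / (q : ℝ) = u at *
  linarith

theorem small {L p : ℕ} (hL : 1 ≤ L) (hp : p.Prime) :
    fS L p ≤ AA L p * Real.log p + 400 * L * Real.log (48 * L + 2) := by
  have l0 := Real.log_natCast_nonneg p
  have b0 : (1 : ℝ) ≤ L := by exact_mod_cast hL
  have h1 : (28 * L + 2) * (28 * L + 3) *
      (∑ a ∈ Icc 1 (Nat.log p (48 * L + 2)), 1 / (p : ℝ) ^ a) ≤
      AA L p + Nat.log p (48 * L + 2) * (94 * L) := by
    rw [mul_sum, AA]
    refine le_trans (sum_le_sum (g := fun a => Ps L (p ^ a) + 94 * L) fun a ha => ?_)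
      (le_of_eq (by simp [sum_add_distrib]))
    obtain ⟨h4, h5⟩ := mem_Icc.1 ha
    have h6 := ps_lo (q := p ^ a) hL (hp.two_le.trans (Nat.le_self_pow (by omega) p))
      (Nat.pow_le_of_le_log (by omega) h5)
    rwa [Nat.cast_pow] at h6
  have h2 : (Nat.log p (48 * L + 2) : ℝ) * Real.log p ≤ Real.log (48 * L + 2) := by
    rw [← Real.log_pow]
    refine Real.log_le_log (pow_pos (by exact_mod_cast hp.pos) _) ?_
    exact_mod_cast Nat.pow_log_le_self p (show 48 * L + 2 ≠ 0 by omega)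
  have h3 : 0 ≤ Real.log (48 * (L : ℝ) + 2) := Real.log_nonneg (by linarith)
  have h4 := mul_le_mul_of_nonneg_right h1 l0
  have h5 := mul_le_mul_of_nonneg_left h2 (show (0 : ℝ) ≤ 94 * L by positivity)
  have h6 := mul_le_mul_of_nonneg_right b0 h3
  unfold fS
  linarith

theorem AA_eq {L p : ℕ} (hp : p.Prime) (h : 48 * L + 2 ≤ p ^ 2) (h' : p ≤ 48 * L + 2) :
    AA L p = Ps L p := by
  unfold AA
  rw [sum_eq_single 1, pow_one]
  · intro a ha h1
    have h2 := h.trans (Nat.pow_le_pow_right hp.pos (show 2 ≤ a by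
      have := (mem_Icc.1 ha).1
      omega))
    rw [Ps, psi_zero (by omega), psi_zero (by omega), psi_zero (by omega)]
    simp
  · exact fun h1 => (h1 (mem_Icc.2 ⟨le_rfl, Nat.log_pos hp.one_lt h'⟩)).elim

theorem medium {L p : ℕ} (hp : p.Prime) (h : 48 * L + 2 ≤ p ^ 2) (h' : p ≤ 48 * L + 2) :
    fM L p = AA L p * Real.log p + (142 * L + 8) * Real.log p := by
  rw [AA_eq hp h h', fM, Ps, Phi]
  push_cast
  ring

/-- The contribution of a large prime. -/
noncomputable def GG (L p : ℕ) : ℝ :=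
  5 * (((40 * L + 2 - p : ℕ) : ℝ) * Real.log p) - 8 * (((26 * L + 1 - p : ℕ) : ℝ) * Real.log p) +
    3 * (((48 * L + 2 - p : ℕ) : ℝ) * Real.log p) + 6 * (((24 * L + 1 - p : ℕ) : ℝ) * Real.log p)

theorem large {L p : ℕ} (hp : p.Prime) (h : 48 * L + 2 ≤ p ^ 2) (h' : p ≤ 48 * L + 2)
    (h1 : 23 * L < p) : fL L p = AA L p * Real.log p + GG L p := by
  rw [AA_eq hp h h', Ps, psi_two hp.pos (by omega), psi_zero (l := 8 * L) (by omega),
    psi_two hp.pos (by omega), show 40 * L + 2 - 2 * p = 0 by omega,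
    show 48 * L + 2 - 2 * p = 2 * (24 * L + 1 - p) by omega, fL, GG]
  simp only [add_zero, Nat.cast_add, Nat.cast_zero, Nat.cast_mul, Nat.cast_ofNat]
  ring

theorem each {L p : ℕ} (hL : 100 ≤ L) (hp : p.Prime) (h' : p ≤ 48 * L + 2) :
    ff L p ≤ AA L p * Real.log p +
      (if p ^ 2 < 48 * L + 2 then 400 * L * Real.log (48 * L + 2) else 0) +
      if p ≤ 23 * L then (142 * L + 8) * Real.log p else GG L p := by
  have l0 := Real.log_natCast_nonneg p
  simp only [ff]
  split_ifs with h h1 h1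
  · have := small (by omega : 1 ≤ L) hp
    have h2 : (0 : ℝ) ≤ (142 * L + 8) * Real.log p := by positivity
    linarith
  · nlinarith
  · linarith [medium hp (not_lt.1 h) h']
  · linarith [large hp (not_lt.1 h) h' (by omega)]

theorem supU {l : ℕ} {y x w : ℝ} (hy : 1 ≤ y) (h2 : (l : ℝ) = y + 2) (h4 : (l : ℝ) ≤ 25 * x)
    (h5 : Real.log (l + 1) ≤ w) :
    SS l ≤ y ^ 2 / 2 * Real.log y - 3 / 4 * y ^ 2 + 400 * x * (w + 1) ∧
      y ^ 2 / 2 * Real.log y - 3 / 4 * y ^ 2 - 400 * x * (w + 1) ≤ SS l := by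
  obtain ⟨a1, a2⟩ := abs_le.1 (sup D57.super (l := l) (y := l) (x := x) (w := w) (by linarith)
    le_rfl (by linarith) h4 h5)
  rw [h2] at a1 a2 h4 h5
  have y0 : 0 < y := by linarith
  have b0 : 0 ≤ Real.log y := Real.log_nonneg hy
  have b1 : Real.log y ≤ Real.log (y + 2) := Real.log_le_log y0 (by linarith)
  have b2 : Real.log (y + 2) ≤ w := (Real.log_le_log (by linarith) (by linarith)).trans h5
  have b3 : y * Real.log (y + 2) ≤ y * Real.log y + 2 := by
    have h := Real.log_le_sub_one_of_pos (show 0 < (y + 2) / y by positivity)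
    rw [Real.log_div (by linarith) y0.ne'] at h
    have h' := mul_le_mul_of_nonneg_left h y0.le
    rw [show y * ((y + 2) / y - 1) = 2 by field_simp; ring] at h'
    linarith
  have b4 := mul_le_mul_of_nonneg_left b3 y0.le
  have b5 := mul_le_mul (show 2 * y + 2 ≤ 50 * x by linarith) b2 (b0.trans b1) (by linarith)
  have b6 := mul_le_mul (show y ^ 2 ≤ (y + 2) ^ 2 by nlinarith) b1 b0 (by positivity)
  have b7 := mul_nonneg (show 0 ≤ x by linarith) (show 0 ≤ w by linarith)
  constructor <;> linarith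

theorem primeSum : PrimeStmt := by
  obtain ⟨N, hN⟩ := eventually_atTop.1
    (D57.cheb (H13.pnt_of_newman H13.newman) (1 / 1000000) (by norm_num))
  filter_upwards [eventually_ge_atTop N, eventually_ge_atTop (120000 ^ 4)] with L hLN hL
  have hL1 : 1000000 ≤ L := le_trans (by norm_num) hL
  have x1 : (1000000 : ℝ) ≤ L := by exact_mod_cast hL1
  have x2 : (120000 : ℝ) ^ 4 ≤ L := by exact_mod_cast hL
  have w1 := logs (x := 2 * L) (by linarith)
  rw [show 24 * (2 * (L : ℝ)) + 2 = 48 * L + 2 by ring] at w1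
  refine (sum_le_sum fun p hp => each (by omega) (mem_filter.1 hp).2
    (Nat.lt_succ_iff.1 (mem_range.1 (mem_filter.1 hp).1))).trans ?_
  rw [sum_add_distrib, sum_add_distrib, ← sum_filter, sum_const, nsmul_eq_mul, sum_ite,
    filt (by omega), ← mul_sum, ← TH, sum_AA]
  simp only [GG, sum_add_distrib, sum_sub_distrib, ← mul_sum]
  rw [tail (by omega) (by omega), tail (by omega) (by omega), tail (by omega) (by omega),
    tail (by omega) (by omega)]
  obtain ⟨a1, a2⟩ := hN (23 * L) (by omega)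
  have key : ∀ l : ℕ, 23 * L ≤ l → l ≤ 50 * L → |TT l - TT (23 * L) -
      ((l : ℝ) - (23 * L : ℕ)) * TH (23 * L) - ((l : ℝ) - (23 * L : ℕ)) ^ 2 / 2| ≤
      1875 * (1 / 1000000) * (2 * (L : ℝ)) ^ 2 := fun l h5 h6 =>
    win (by norm_num) (hN l (by omega)).2 a2 a1 (Nat.cast_nonneg _) (Nat.cast_le.2 h5)
      (by have : (l : ℝ) ≤ 50 * L := by exact_mod_cast h6
          linarith)
  have b1 := (abs_le.1 (key (40 * L + 2) (by omega) (by omega))).2
  have b2 := (abs_le.1 (key (26 * L + 1) (by omega) (by omega))).1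
  have b3 := (abs_le.1 (key (48 * L + 2) (by omega) (by omega))).2
  have b4 := (abs_le.1 (key (24 * L + 1) (by omega) (by omega))).2
  have lg : ∀ l : ℕ, l ≤ 48 * L + 2 → Real.log ((l : ℝ) + 1) ≤ Real.log (48 * L + 2) + 1 :=
    fun l hl => by
      have h1 : (l : ℝ) ≤ 48 * L + 2 := by exact_mod_cast hl
      have h2 : Real.log ((l : ℝ) + 1) ≤ Real.log (2 * (48 * L + 2)) :=
        Real.log_le_log (by positivity) (by linarith)
      rw [Real.log_mul two_ne_zero (by positivity)] at h2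
      linarith [Real.log_two_lt_d9]
  have c1 := (supU (l := 40 * L + 2) (y := 40 * L) (x := 2 * L) (by linarith) (by simp)
    (by push_cast; linarith) (lg _ (by omega))).1
  have c2 := (abs_le.1 (sup D57.super (l := 8 * L) (y := 8 * L) (x := 2 * L) (by linarith)
    (by simp) (by simp) (by push_cast; linarith) (lg _ (by omega)))).2
  have c3 := (supU (l := 48 * L + 2) (y := 48 * L) (x := 2 * L) (by linarith) (by simp)
    (by push_cast; linarith) (lg _ (by omega))).2
  have g1 : Real.log (40 * (L : ℝ)) = 3 * Real.log 2 + Real.log 5 + Real.log L := by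
    rw [show 40 * (L : ℝ) = 2 ^ 3 * 5 * L by norm_num, Real.log_mul (by norm_num) (by linarith),
      Real.log_mul (by norm_num) (by norm_num), Real.log_pow, Nat.cast_ofNat]
  have g2 : Real.log (8 * (L : ℝ)) = 3 * Real.log 2 + Real.log L := by
    rw [show 8 * (L : ℝ) = 2 ^ 3 * L by norm_num, Real.log_mul (by norm_num) (by linarith),
      Real.log_pow, Nat.cast_ofNat]
  have g3 : Real.log (48 * (L : ℝ)) = 4 * Real.log 2 + Real.log 3 + Real.log L := by
    rw [show 48 * (L : ℝ) = 2 ^ 4 * 3 * L by norm_num, Real.log_mul (by norm_num) (by linarith),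
      Real.log_mul (by norm_num) (by norm_num), Real.log_pow, Nat.cast_ofNat]
  rw [g1] at c1
  rw [g2] at c2
  rw [g3] at c3
  have s0 := sq_nonneg (L : ℝ)
  have d1 := mul_le_mul_of_nonneg_right Real.log_two_gt_d9.le s0
  have d2 := mul_le_mul_of_nonneg_right Real.log_three_gt_d9.le s0
  have d3 := mul_le_mul_of_nonneg_right Real.log_five_lt_d9.le s0
  have w0 : 0 ≤ Real.log (48 * (L : ℝ) + 2) := Real.log_nonneg (by linarith)
  have f0 := D57.Prime.card_small (2 * L) (by omega)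
  rw [show 24 * (2 * L) = 48 * L by ring, Nat.cast_mul, Nat.cast_ofNat] at f0
  have s1 : √(2 * (L : ℝ)) * √(2 * (L : ℝ)) = 2 * L := Real.mul_self_sqrt (by linarith)
  have s2 : 1000 ≤ √(2 * (L : ℝ)) := Real.le_sqrt_of_sq_le (by linarith)
  generalize √(2 * (L : ℝ)) = z at *
  have s3 : 500 * z ≤ L := by nlinarith
  have f1 := mul_le_mul_of_nonneg_right f0
    (show (0 : ℝ) ≤ 400 * L * Real.log (48 * L + 2) by positivity)
  generalize Real.log (48 * (L : ℝ) + 2) = w at *
  have f2 : 10000 * (z * w) ≤ 2 * L := by nlinarith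
  have f3 := mul_le_mul_of_nonneg_left f2 (show (0 : ℝ) ≤ L by linarith)
  have f4 := mul_le_mul_of_nonneg_left (show 1000000 * (w + 2) ≤ L by linarith)
    (show (0 : ℝ) ≤ L by linarith)
  have f6 := mul_le_mul_of_nonneg_left x1 (show (0 : ℝ) ≤ L by linarith)
  replace a1 := (abs_le.1 a1).2
  push_cast at a1 b1 b2 b3 b4 ⊢
  have v6 : (142 * L + 8) * TH (23 * L) ≤ (142 * L + 8) * (23 * L * (1 + 1 / 1000000)) :=
    mul_le_mul_of_nonneg_left (by linarith) (by positivity)
  linarith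

end Prime76

end Pool.Agent.MP_807c24_nt.Z34
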