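import Pool.Agent.MP_807c24_nt.Z34.Basic
import Pool.Agent.MP_807c24_nt.Z23.Real

/-!
The Hankel determinant is small.
-/

namespace Pool.Agent.MP_807c24_nt.Z34

open Finset Polynomial
open Pool.Agent.MP_807c24_nt.H13 (zr)
open Pool.Agent.MP_807c24_nt.D57 (lam hank)
open Pool.Agent.MP_807c24_nt.Z23 (ln)
open Pool.Agent.MP_807c24_nt.Z23.RealP (sum_div_mod sum_id)

noncomputable section

namespace RealP

/-- The linear factor centred on the line. -/
def li (m : ℕ) : ℚ[X] := X - C (8 * (m : ℚ) - 1 / 2)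

/-- The quadratic factors. -/
def qq (m s : ℕ) : ℚ[X] := li m ^ 2 + C (((ro s : ℚ) * m / 64) ^ 2)

lemma li_monic (m : ℕ) : (li m).Monic ∧ (li m).natDegree = 1 :=
  ⟨monic_X_sub_C _, natDegree_X_sub_C _⟩

lemma qq_monic (m s : ℕ) : (qq m s).Monic ∧ (qq m s).natDegree = 2 := by
  unfold qq li
  constructor
  · monicity!
  · compute_degree!

lemma li_eval (m : ℕ) (y : ℝ) : aeval (ln (8 * m) y) (li m) = y * Complex.I := by
  simp only [li, ln, map_sub, aeval_X, aeval_C, eq_ratCast]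
  push_cast
  ring

lemma li_norm (m : ℕ) (y : ℝ) : ‖aeval (ln (8 * m) y) (li m)‖ = |y| := by
  rw [li_eval, norm_mul, Complex.norm_I, Complex.norm_real, Real.norm_eq_abs, mul_one]

lemma qq_norm {m : ℕ} (hm : 0 < m) (s : ℕ) (y : ℝ) :
    ‖aeval (ln (8 * m) y) (qq m s)‖ ^ 4 =
      (m : ℝ) ^ 8 * (((ro s : ℝ) / 64) ^ 2 - (|y| / m) ^ 2) ^ 4 := by
  have mp : (m : ℝ) ≠ 0 := Nat.cast_ne_zero.2 hm.ne'
  have e : aeval (ln (8 * m) y) (qq m s) = ((((ro s : ℝ) * m / 64) ^ 2 - y ^ 2 : ℝ) : ℂ) := by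
    rw [qq, map_add, map_pow, li_eval, aeval_C, eq_ratCast, mul_pow, Complex.I_sq]
    push_cast
    ring
  rw [e, Complex.norm_real, Real.norm_eq_abs, (show Even 4 by decide).pow_abs, div_pow |y|, sq_abs]
  field_simp

/-- The even part of the basis. -/
def Q (m g : ℕ) : ℚ[X] := (∏ s ∈ range (g / m), qq m s ^ m) * qq m (g / m) ^ (g % m)

lemma Q_monic (m g : ℕ) : (Q m g).Monic ∧ (Q m g).natDegree = 2 * g := by
  have h1 : ∀ s ∈ range (g / m), (qq m s ^ m).Monic := fun s _ => (qq_monic m s).1.pow _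
  have h2 := monic_prod_of_monic _ _ h1
  have h3 : (qq m (g / m) ^ (g % m)).Monic := (qq_monic m _).1.pow _
  refine ⟨h2.mul h3, ?_⟩
  rw [Q, h2.natDegree_mul h3, natDegree_prod_of_monic _ _ h1, (qq_monic m _).1.natDegree_pow,
    (qq_monic m _).2,
    sum_congr rfl fun s _ => ((qq_monic m s).1.natDegree_pow m).trans (by rw [(qq_monic m s).2]),
    sum_const, card_range, smul_eq_mul]
  have := Nat.div_add_mod g m
  calc g / m * (m * 2) + g % m * 2 = 2 * (m * (g / m) + g % m) := by ring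
    _ = 2 * g := by rw [this]

/-- The basis. -/
def P (m i : ℕ) : ℚ[X] := Q m (i / 2) * li m ^ (i % 2)

lemma P_monic (m i : ℕ) : (P m i).Monic ∧ (P m i).natDegree = i := by
  refine ⟨(Q_monic m _).1.mul ((li_monic m).1.pow _), ?_⟩
  rw [P, (Q_monic m _).1.natDegree_mul ((li_monic m).1.pow _), (Q_monic m _).2,
    (li_monic m).1.natDegree_pow, (li_monic m).2]
  omega

/-- The interpolated exponent. -/
def ex (m s t : ℕ) : ℝ := be s * ((m : ℝ) - t) + be (s + 1) * t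

/-- Logarithm of the size of a basis element. -/
def bb (m g : ℕ) : ℝ := -ex m (g / m) (g % m) / 4 + 2 * (g : ℝ) * Real.log m

lemma WW_nonneg {η : ℝ} : 0 ≤ WW η :=
  div_nonneg (prod_nonneg fun a _ => by positivity) (prod_nonneg fun a _ => sq_nonneg _)

lemma core {l u t s g : ℕ} (hu : l = u + t) (hg : l * s + t = g) (l0 : 0 < l)
    {R W K b b' η : ℝ} {n q : ℕ → ℝ} (R0 : 0 ≤ R) (W0 : 0 ≤ W) (K0 : 0 ≤ K) (n0 : ∀ s, 0 ≤ n s)
    (h1 : R ^ 2 ≤ K ^ 2 * Real.exp (η * l / 500) * W ^ l)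
    (n4 : ∀ s, n s ^ 4 = (l : ℝ) ^ 8 * q s ^ 4)
    (p1 : W * ∏ s' ∈ range s, q s' ^ 4 ≤ Real.exp (-b + 314 / 25 * η))
    (p2 : t ≠ 0 → W * ∏ s' ∈ range (s + 1), q s' ^ 4 ≤ Real.exp (-b' + 314 / 25 * η)) :
    R * ((∏ s' ∈ range s, n s') ^ l * n s ^ t) ^ 2 ≤ K *
      Real.exp (2 * (-(b * ((l : ℝ) - t) + b' * t) / 4 + 2 * (g : ℝ) * Real.log l) +
        6281 / 1000 * (η * l)) := by
  have Lp : (0 : ℝ) < l := Nat.cast_pos.2 l0
  rw [prod_range_succ] at p2
  have A0 : 0 ≤ ∏ s' ∈ range s, q s' ^ 4 := prod_nonneg fun _ _ => by positivity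
  have N0 : 0 ≤ ∏ s' ∈ range s, n s' := prod_nonneg fun _ _ => n0 _
  have e2 : (∏ s' ∈ range s, n s') ^ 4 = ((l : ℝ) ^ 8) ^ s * ∏ s' ∈ range s, q s' ^ 4 := by
    rw [← prod_pow, ← card_range s, ← prod_const, card_range, ← prod_mul_distrib]
    exact prod_congr rfl fun s' _ => n4 s'
  have m0 := n0 s
  have m4 := n4 s
  generalize ∏ s' ∈ range s, q s' ^ 4 = A at *
  generalize ∏ s' ∈ range s, n s' = N at *
  generalize n s = m at *
  have r0 : 0 ≤ q s ^ 4 := by positivity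
  generalize q s ^ 4 = r at *
  have e3 : (N ^ l * m ^ t) ^ 4 = (l : ℝ) ^ (8 * g) * (A ^ l * r ^ t) :=
    calc (N ^ l * m ^ t) ^ 4 = (N ^ 4) ^ l * (m ^ 4) ^ t := by ring
      _ = (((l : ℝ) ^ 8) ^ s * A) ^ l * ((l : ℝ) ^ 8 * r) ^ t := by rw [e2, m4]
      _ = (l : ℝ) ^ (8 * (l * s + t)) * (A ^ l * r ^ t) := by ring
      _ = _ := by rw [hg]
  have e4 : W ^ l * (A ^ l * r ^ t) ≤
      Real.exp (-(b * ((l : ℝ) - t) + b' * t) + 314 / 25 * (η * l)) :=
    calc W ^ l * (A ^ l * r ^ t) = (W * A) ^ u * (W * (A * r)) ^ t := by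
          rw [hu]
          ring
      _ ≤ Real.exp (-b + 314 / 25 * η) ^ u * Real.exp (-b' + 314 / 25 * η) ^ t := by
          rcases eq_or_ne t 0 with h0 | h0
          · rw [h0, pow_zero, pow_zero]
            gcongr
          · have := p2 h0
            gcongr
      _ = _ := by
          rw [← Real.exp_nat_mul, ← Real.exp_nat_mul, ← Real.exp_add, hu]
          congr 1
          push_cast
          ring
  have e5 : (l : ℝ) ^ (8 * g) = Real.exp (8 * (g : ℝ) * Real.log l) := by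
    rw [show 8 * (g : ℝ) = ((8 * g : ℕ) : ℝ) by push_cast; rfl, Real.exp_nat_mul, Real.exp_log Lp]
  refine (pow_le_pow_iff_left₀ (by positivity) (by positivity) two_ne_zero).1 ?_
  calc (R * (N ^ l * m ^ t) ^ 2) ^ 2 = R ^ 2 * (N ^ l * m ^ t) ^ 4 := by ring
    _ ≤ K ^ 2 * Real.exp (η * l / 500) * W ^ l * ((l : ℝ) ^ (8 * g) * (A ^ l * r ^ t)) := by
        rw [e3]
        exact mul_le_mul_of_nonneg_right h1 (by positivity)
    _ = K ^ 2 * Real.exp (η * l / 500) * (l : ℝ) ^ (8 * g) * (W ^ l * (A ^ l * r ^ t)) := by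
        rw [mul_mul_mul_comm _ (W ^ l)]
    _ ≤ K ^ 2 * Real.exp (η * l / 500) * Real.exp (8 * (g : ℝ) * Real.log l) *
        Real.exp (-(b * ((l : ℝ) - t) + b' * t) + 314 / 25 * (η * l)) := by
        rw [e5]
        exact mul_le_mul_of_nonneg_left e4
          (mul_nonneg (mul_nonneg (pow_nonneg K0 _) (Real.exp_pos _).le) (Real.exp_pos _).le)
    _ = _ := by
        rw [mul_pow, mul_assoc, mul_assoc, ← Real.exp_add, ← Real.exp_add,
          ← Real.exp_nat_mul]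
        congr 2
        push_cast
        ring

/-- The common factor. -/
def KK (L : ℕ) : ℝ := 2000 ^ 2 * Real.exp (-(56 * L * Real.log L))

lemma KK_pos (L : ℕ) : 0 < KK L := by
  unfold KK
  positivity

lemma KK_sq {L : ℕ} (hL : 1 ≤ L) : KK L ^ 2 = 2000 ^ 4 / (L : ℝ) ^ (112 * L) := by
  have Lp : (0 : ℝ) < L := Nat.cast_pos.2 hL
  have e : (L : ℝ) ^ (112 * L) = Real.exp (56 * L * Real.log L) ^ 2 := by
    rw [← Real.exp_nat_mul, show ((2 : ℕ) : ℝ) * (56 * L * Real.log L) =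
      ((112 * L : ℕ) : ℝ) * Real.log L by push_cast; ring, Real.exp_nat_mul, Real.exp_log Lp]
  rw [e, KK, Real.exp_neg, mul_pow, inv_pow, div_eq_mul_inv, ← pow_mul]

lemma key (hp : PhiStmt) (hs : SizeStmt) {L g : ℕ} (y : ℝ) (hL : 1 ≤ L) (hg : g ≤ 14 * L) :
    ‖Rr L (ln (8 * L) y)‖ * (1 + |y|) ^ 2 * ‖aeval (ln (8 * L) y) (Q L g)‖ ^ 2 ≤
      KK L * Real.exp (2 * bb L g + 6281 / 1000 * |y|) := by
  have h1 := hs L y hL
  have mp : (0 : ℝ) < L := Nat.cast_pos.2 hL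
  have hη : 0 ≤ |y| / L := div_nonneg (abs_nonneg _) mp.le
  have hs8 : g / L ≤ 14 := Nat.div_le_of_le_mul (by omega)
  have ht : g % L < L := Nat.mod_lt _ hL
  have hs9 : g % L ≠ 0 → g / L + 1 ≤ 14 := fun h => by
    by_contra h2
    have h3 := Nat.div_add_mod g L
    rw [show g / L = 14 by omega] at h3
    omega
  have hy : |y| / L * L = |y| := div_mul_cancel₀ _ mp.ne'
  have h := core (u := L - g % L) (t := g % L) (η := |y| / L)
    (R := ‖Rr L (ln (8 * L) y)‖ * (1 + |y|) ^ 2) (K := KK L) (by omega)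
    (Nat.div_add_mod g L) hL (by positivity) WW_nonneg (KK_pos L).le
    (fun _ => norm_nonneg _) (by rw [hy, KK_sq hL]; exact h1.trans_eq (by ring))
    (fun s => qq_norm hL s y) (hp _ hs8 _ hη) (fun h => hp _ (hs9 h) _ hη)
  rw [hy] at h
  refine le_of_eq_of_le ?_ h
  simp only [Q, map_mul, map_prod, map_pow, norm_mul, norm_prod, norm_pow, prod_pow]

lemma line (hp : PhiStmt) (hs : SizeStmt) {L i j : ℕ} (y : ℝ) (hL : 1 ≤ L)
    (hi : i < 28 * L + 2) (hj : j < 28 * L + 2) :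
    ‖Rr L (ln (8 * L) y) * aeval (ln (8 * L) y) (P L i * P L j)‖ ≤
      KK L * (Real.exp (bb L (i / 2)) * Real.exp (bb L (j / 2))) *
        Real.exp (6281 / 1000 * |y|) := by
  have k1 := key hp hs y hL (show i / 2 ≤ 14 * L by omega)
  have k2 := key hp hs y hL (show j / 2 ≤ 14 * L by omega)
  set a := ‖aeval (ln (8 * L) y) (Q L (i / 2))‖ with ha
  set b := ‖aeval (ln (8 * L) y) (Q L (j / 2))‖ with hb
  have K0 := (KK_pos L).le
  have k3 : ‖Rr L (ln (8 * L) y)‖ * (1 + |y|) ^ 2 * (a * b) ≤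
      KK L * (Real.exp (bb L (i / 2)) * Real.exp (bb L (j / 2))) *
        Real.exp (6281 / 1000 * |y|) := by
    refine (pow_le_pow_iff_left₀ (by positivity) (by positivity) two_ne_zero).1 ?_
    calc (‖Rr L (ln (8 * L) y)‖ * (1 + |y|) ^ 2 * (a * b)) ^ 2 =
          ‖Rr L (ln (8 * L) y)‖ * (1 + |y|) ^ 2 * a ^ 2 *
            (‖Rr L (ln (8 * L) y)‖ * (1 + |y|) ^ 2 * b ^ 2) := by ring
      _ ≤ KK L * Real.exp (2 * bb L (i / 2) + 6281 / 1000 * |y|) *
          (KK L * Real.exp (2 * bb L (j / 2) + 6281 / 1000 * |y|)) :=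
        mul_le_mul k1 k2 (by positivity) (by positivity)
      _ = _ := by
        simp only [Real.exp_add, two_mul]
        ring
  have y0 := abs_nonneg y
  have k4 : |y| ^ (i % 2 + j % 2) ≤ (1 + |y|) ^ 2 :=
    calc _ ≤ (1 + |y|) ^ (i % 2 + j % 2) := pow_le_pow_left₀ y0 (by linarith) _
      _ ≤ _ := pow_le_pow_right₀ (by linarith) (by omega)
  have e : ‖Rr L (ln (8 * L) y) * aeval (ln (8 * L) y) (P L i * P L j)‖ =
      ‖Rr L (ln (8 * L) y)‖ * |y| ^ (i % 2 + j % 2) * (a * b) := by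
    simp only [P, map_mul, map_pow, norm_mul, norm_pow, li_norm, ha, hb]
    ring
  rw [e]
  refine le_trans ?_ k3
  gcongr

lemma sum_ex {m : ℕ} (hm : 0 < m) :
    5638 * (m : ℝ) ^ 2 ≤ ∑ g ∈ range (14 * m + 1), ex m (g / m) (g % m) := by
  have h2 := sum_div_mod (ex m) hm 14
  have h3 : ∀ s, ∑ t ∈ range m, ex m s t =
      be s * ((m : ℝ) * (m + 1) / 2) + be (s + 1) * ((m : ℝ) * (m - 1) / 2) := fun s => by
    simp only [ex, sum_add_distrib, ← mul_sum, sum_sub_distrib, sum_id, sum_const, card_range,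
      nsmul_eq_mul]
    ring
  have h4 : ∑ s ∈ range 14, ∑ t ∈ range m, ex m s t =
      5712 * ((m : ℝ) * (m + 1) / 2) + 5564 * ((m : ℝ) * (m - 1) / 2) := by
    simp only [h3, sum_range_succ, sum_range_zero, be]
    norm_num
    ring
  have h5 : 0 ≤ ex m (14 * m / m) (14 * m % m) := by
    rw [Nat.mul_mod_left, ex, Nat.cast_zero, sub_zero]
    positivity
  have h6 : (0 : ℝ) ≤ m := Nat.cast_nonneg m
  rw [sum_range_succ, h2, h4]
  nlinarith

lemma sum_bb {L : ℕ} (hL : 1 ≤ L) : ∑ i ∈ range (28 * L + 2), 2 * bb L (i / 2) ≤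
    56 * L * (14 * L + 1) * Real.log L - 5638 * (L : ℝ) ^ 2 := by
  have h1 := sum_div_mod (fun g _ => 2 * bb L g) two_pos (14 * L + 1)
  rw [show (14 * L + 1) * 2 = 28 * L + 2 by ring] at h1
  have h2 := sum_ex hL
  have h5 : ∑ g ∈ range (14 * L + 1), ∑ _t ∈ range 2, 2 * bb L g =
      -∑ g ∈ range (14 * L + 1), ex L (g / L) (g % L) +
        (8 * ∑ g ∈ range (14 * L + 1), (g : ℝ)) * Real.log L := by
    rw [mul_sum, sum_mul, ← sum_neg_distrib, ← sum_add_distrib]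
    refine sum_congr rfl fun g _ => ?_
    rw [sum_const, card_range, nsmul_eq_mul, bb]
    push_cast
    ring
  rw [h1, h5, sum_id]
  push_cast
  nlinarith

end RealP

open RealP in
theorem real (hb : BoundStmt) (hp : PhiStmt) (hs : SizeStmt) : RealStmt := by
  intro a b x hx
  obtain ⟨c, c0, hb⟩ := hb a b x hx
  refine ⟨30 * |Real.log (30 * c * 2000 ^ 2)|, fun L hL => ?_⟩
  have Lp : (0 : ℝ) < L := Nat.cast_pos.2 (by omega)
  have L1 : (1 : ℝ) ≤ L := by exact_mod_cast hL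
  set A : ℝ := c * KK L with hA
  have A0 : 0 < A := mul_pos c0 (KK_pos L)
  rw [Del, ← D57.gram ℚ (mom a b x L) (28 * L + 2) (fun i => P L i) fun i => P_monic _ i,
    Rat.cast_det]
  refine (D57.detR _ _ (fun i => √A * Real.exp (bb L (i / 2))) fun i j => ?_).trans ?_
  · refine (hb L _ _ ?_ fun y => line hp hs y hL i.2 j.2).trans ?_
    · rw [(P_monic L i).1.natDegree_mul (P_monic L j).1, (P_monic L i).2, (P_monic L j).2]
      omega
    · rw [mul_mul_mul_comm √A, Real.mul_self_sqrt A0.le, hA, mul_assoc]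
  · have e1 : ∏ i : Fin (28 * L + 2), (√A * Real.exp (bb L (i / 2))) ^ 2 =
        A ^ (28 * L + 2) * Real.exp (∑ i ∈ range (28 * L + 2), 2 * bb L (i / 2)) := by
      rw [Real.exp_sum, ← Fin.prod_univ_eq_prod_range fun i => Real.exp (2 * bb L (i / 2))]
      simp only [mul_pow, Real.sq_sqrt A0.le, prod_mul_distrib, prod_const, card_univ,
        Fintype.card_fin, ← Real.exp_nat_mul, Nat.cast_ofNat]
    have e2 : ((28 * L + 2).factorial : ℝ) ≤ (30 * (L : ℝ)) ^ (28 * L + 2) := by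
      have h1 := (Nat.factorial_le_pow (28 * L + 2)).trans
        (Nat.pow_le_pow_left (show 28 * L + 2 ≤ 30 * L by omega) _)
      exact_mod_cast h1
    have e3 : (30 * (L : ℝ)) ^ (28 * L + 2) * A ^ (28 * L + 2) =
        Real.exp ((28 * L + 2) * (Real.log (30 * c * 2000 ^ 2) + Real.log L +
          -(56 * L * Real.log L))) := by
      rw [show (28 * (L : ℝ) + 2) = ((28 * L + 2 : ℕ) : ℝ) by push_cast; rfl, Real.exp_nat_mul,
        Real.exp_add, Real.exp_add, Real.exp_log Lp, Real.exp_log (by positivity), ← mul_pow, hA, KK]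
      congr 1
      ring
    have e4 := Real.exp_le_exp.2 (sum_bb hL)
    have l0 := Real.log_nonneg L1
    have lg : 0 ≤ L * Real.log L := mul_nonneg Lp.le l0
    have l1 := le_abs_self (Real.log (30 * c * 2000 ^ 2))
    have l2 := abs_nonneg (Real.log (30 * c * 2000 ^ 2))
    rw [e1]
    calc _ ≤ (30 * (L : ℝ)) ^ (28 * L + 2) * (A ^ (28 * L + 2) * Real.exp
          (56 * L * (14 * L + 1) * Real.log L - 5638 * (L : ℝ) ^ 2)) := by gcongr
      _ ≤ _ := by
        rw [← mul_assoc, e3, ← Real.exp_add]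
        refine Real.exp_le_exp.2 ?_
        generalize Real.log (30 * c * 2000 ^ 2) = z at *
        nlinarith [mul_le_mul_of_nonneg_left l1 (show (0 : ℝ) ≤ 28 * L + 2 by positivity),
          mul_nonneg (sub_nonneg.2 L1) l2]

end

end Pool.Agent.MP_807c24_nt.Z34
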