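import Pool.Agent.MP_807c24_nt.Z34.Basic
import Pool.Agent.MP_807c24_nt.Z23.Size

/-! Size of the rational function on the vertical line. -/

namespace Pool.Agent.MP_807c24_nt.Z34

open Finset
open Pool.Agent.MP_807c24_nt.Z23 (ln)
open Pool.Agent.MP_807c24_nt.Z23.SizeP (nsq prod_Icc_eq pole_pos)

namespace SizeP

lemma zero_cell {m : ℕ} (hm : 1 ≤ m) (y : ℝ) (a : ℕ) :
    (∏ j ∈ range m, ‖ln (8 * m) y - ((a * m + j : ℕ) : ℂ)‖) ^ 2 ≤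
      ((m : ℝ) ^ 2) ^ m * ((15 / 2 - (a : ℝ)) ^ 2 + (|y| / m) ^ 2 + 1 / 4) ^ m := by
  have hm' : (0 : ℝ) < m := by exact_mod_cast hm
  set w : ℂ := ((-((15 / 2 - (a : ℝ)) * m) : ℝ) : ℂ) + ((-y : ℝ) : ℂ) * Complex.I with hw
  have e1 : ∀ j : ℕ, ‖ln (8 * m) y - ((a * m + j : ℕ) : ℂ)‖ = ‖w + ((j : ℂ) + 1 / 2 - m / 2)‖ := by
    intro j
    rw [← norm_neg]
    congr 1
    rw [hw, ln]
    push_cast
    ring
  have e2 : ‖w‖ ^ 2 = (m : ℝ) ^ 2 * ((15 / 2 - (a : ℝ)) ^ 2 + (|y| / m) ^ 2) := by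
    rw [hw, nsq, div_pow, sq_abs]
    field_simp
  simp only [e1]
  refine (H13.Size.cell_le w m).trans_eq ?_
  rw [← mul_pow, e2]
  congr 1
  ring

lemma base_pos (a : ℕ) (η : ℝ) : 0 < (17 / 2 + (a : ℝ)) ^ 2 + η ^ 2 - 1 / 4 := by
  have ha : (0 : ℝ) ≤ a := Nat.cast_nonneg a
  nlinarith [sq_nonneg η]

lemma pole_cell {m : ℕ} (hm : 1 ≤ m) (y : ℝ) (a : ℕ) :
    ((m : ℝ) ^ 2) ^ m * ((17 / 2 + (a : ℝ)) ^ 2 + (|y| / m) ^ 2 - 1 / 4) ^ m ≤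
      (∏ j ∈ range m, ‖ln (8 * m) y + ((a * m + j + 1 : ℕ) : ℂ)‖) ^ 2 := by
  have hm' : (0 : ℝ) < m := by exact_mod_cast hm
  set w : ℂ := (((17 / 2 + (a : ℝ)) * m : ℝ) : ℂ) + (y : ℂ) * Complex.I with hw
  have e1 : ∀ j : ℕ, ln (8 * m) y + ((a * m + j + 1 : ℕ) : ℂ) = w + ((j : ℂ) + 1 / 2 - m / 2) := by
    intro j
    rw [hw, ln]
    push_cast
    ring
  have e2 : ‖w‖ ^ 2 - (m : ℝ) ^ 2 / 4 =
      (m : ℝ) ^ 2 * ((17 / 2 + (a : ℝ)) ^ 2 + (|y| / m) ^ 2 - 1 / 4) := by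
    rw [hw, nsq, div_pow, sq_abs]
    field_simp
  have hA := base_pos a (|y| / m)
  simp only [e1]
  refine le_of_eq_of_le ?_ (H13.Size.le_cell w m (by rw [e2]; positivity))
  rw [← mul_pow, e2]

lemma ratio {m : ℕ} (hm : 1 ≤ m) (y : ℝ) :
    ((∏ t ∈ range (8 * m), ‖ln (8 * m) y - (t : ℂ)‖) ^ 3 /
      (∏ j ∈ range (40 * m), ‖ln (8 * m) y + ((j + 1 : ℕ) : ℂ)‖) ^ 2) ^ 2 ≤
      WW (|y| / m) ^ m / (m : ℝ) ^ (112 * m) := by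
  have hm' : (0 : ℝ) < m := by exact_mod_cast hm
  have hM : 0 < ((m : ℝ) ^ 2) ^ m := by positivity
  have h1 : ((∏ t ∈ range (8 * m), ‖ln (8 * m) y - (t : ℂ)‖) ^ 3) ^ 2 ≤
      (((m : ℝ) ^ 2) ^ m) ^ 24 *
        (∏ a ∈ range 8, ((15 / 2 - (a : ℝ)) ^ 2 + (|y| / m) ^ 2 + 1 / 4) ^ 3) ^ m := by
    rw [pow_right_comm, H13.Size.prod_cells, ← prod_pow, prod_pow _ 3, pow_right_comm _ 3 m,
      show 24 = 8 * 3 from rfl, pow_mul, ← mul_pow]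
    refine pow_le_pow_left₀ (prod_nonneg fun _ _ => sq_nonneg _) ?_ 3
    refine (prod_le_prod (fun _ _ => sq_nonneg _) fun a _ => zero_cell hm y a).trans_eq ?_
    rw [prod_mul_distrib, prod_const, card_range, prod_pow]
  have h2 : (((m : ℝ) ^ 2) ^ m) ^ 40 *
      (∏ a ∈ range 40, ((17 / 2 + (a : ℝ)) ^ 2 + (|y| / m) ^ 2 - 1 / 4)) ^ m ≤
      (∏ j ∈ range (40 * m), ‖ln (8 * m) y + ((j + 1 : ℕ) : ℂ)‖) ^ 2 := by
    rw [H13.Size.prod_cells, ← prod_pow _ 2]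
    refine le_of_eq_of_le ?_ (prod_le_prod (fun a _ => ?_) fun a _ => pole_cell hm y a)
    · rw [prod_mul_distrib, prod_const, card_range, prod_pow]
    · have hA := base_pos a (|y| / m)
      positivity
  have h3 : 0 < ∏ a ∈ range 40, ((17 / 2 + (a : ℝ)) ^ 2 + (|y| / m) ^ 2 - 1 / 4) :=
    prod_pos fun a _ => base_pos a _
  have h4 := pow_le_pow_left₀ (by positivity) h2 2
  have e : (m : ℝ) ^ (112 * m) = (((m : ℝ) ^ 2) ^ m) ^ 56 := by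
    rw [← pow_mul, ← pow_mul]
    congr 1
    ring
  rw [div_pow, WW, div_pow, prod_pow _ 2, e]
  refine (div_le_div₀ ((sq_nonneg _).trans h1) h1 (by positivity) h4).trans_eq ?_
  generalize (∏ a ∈ range 40, ((17 / 2 + (a : ℝ)) ^ 2 + (|y| / m) ^ 2 - 1 / 4)) = D at h3
  generalize (∏ a ∈ range 8, ((15 / 2 - (a : ℝ)) ^ 2 + (|y| / m) ^ 2 + 1 / 4) ^ 3) = N
  generalize ((m : ℝ) ^ 2) ^ m = M at hM
  rw [pow_right_comm D 2 m]
  have hD : 0 < D ^ m := pow_pos h3 m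
  generalize D ^ m = E at hD
  field_simp

lemma one_le_pole (n j : ℕ) (hn : 1 ≤ n) (y : ℝ) : 1 ≤ ‖ln n y + ((j + 1 : ℕ) : ℂ)‖ := by
  refine le_trans ?_ (Complex.re_le_norm _)
  have e : (ln n y + ((j + 1 : ℕ) : ℂ)).re = (n : ℝ) - 1 / 2 + (j + 1) := by simp [ln]
  rw [e]
  have h1 : (1 : ℝ) ≤ n := by exact_mod_cast hn
  have h2 : (0 : ℝ) ≤ j := Nat.cast_nonneg j
  linarith

lemma extend {m : ℕ} (hm : 1 ≤ m) (y : ℝ) :
    ‖Rr m (ln (8 * m) y)‖ ≤ (∏ t ∈ range (8 * m), ‖ln (8 * m) y - (t : ℂ)‖) ^ 3 /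
      (∏ j ∈ range (40 * m), ‖ln (8 * m) y + ((j + 1 : ℕ) : ℂ)‖) ^ 2 := by
  have e0 : ‖Rr m (ln (8 * m) y)‖ = (∏ t ∈ range (8 * m), ‖ln (8 * m) y - (t : ℂ)‖) ^ 3 /
      (∏ j ∈ range (40 * m + 2), ‖ln (8 * m) y + ((j + 1 : ℕ) : ℂ)‖) ^ 2 := by
    rw [Rr, norm_div, norm_prod, norm_prod, prod_Icc_eq, ← prod_pow, ← prod_pow]
    simp only [norm_pow]
  have p1 : 0 < ∏ j ∈ range (40 * m), ‖ln (8 * m) y + ((j + 1 : ℕ) : ℂ)‖ :=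
    prod_pos fun j _ => pole_pos _ j y
  rw [e0]
  refine div_le_div_of_nonneg_left (pow_nonneg (prod_nonneg fun _ _ => norm_nonneg _) 3)
    (pow_pos p1 2) (pow_le_pow_left₀ p1.le ?_ 2)
  rw [prod_range_add]
  refine le_mul_of_one_le_right p1.le ?_
  exact le_of_eq_of_le (by rw [prod_const_one])
    (prod_le_prod (fun _ _ => zero_le_one) fun k _ => one_le_pole (8 * m) (40 * m + k) (by omega) y)

end SizeP

theorem size : SizeStmt := by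
  intro L y hm
  have h1 := SizeP.extend hm y
  have h2 := SizeP.ratio hm y
  have hy := abs_nonneg y
  have h3 := Real.add_one_le_exp (|y| / 2000)
  have hB : 1 + |y| ≤ 2000 * Real.exp (|y| / 2000) := by linarith
  have e1 : (2000 * Real.exp (|y| / 2000)) ^ 4 = 2000 ^ 4 * Real.exp (|y| / 500) := by
    rw [mul_pow, ← Real.exp_nat_mul]
    congr 2
    push_cast
    ring
  have h4 : (1 + |y|) ^ 4 ≤ 2000 ^ 4 * Real.exp (|y| / 500) :=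
    e1 ▸ pow_le_pow_left₀ (by positivity) hB 4
  have h5 := (pow_le_pow_left₀ (norm_nonneg _) h1 2).trans h2
  rw [mul_pow, ← pow_mul, mul_div_assoc, mul_comm]
  exact mul_le_mul h4 h5 (by positivity) (by positivity)

end Pool.Agent.MP_807c24_nt.Z34
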