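import Pool.Agent.MP_807c24_nt.Z34.Basic
import Pool.Agent.MP_807c24_nt.Z23.Small

/-!
The bound for the Hankel determinant at every prime.
-/

namespace Pool.Agent.MP_807c24_nt.Z34

open Finset Polynomial
open Pool.Agent.MP_807c24_nt.H13 (pn)
open Pool.Agent.MP_807c24_nt.D57 (lam hank psi)
open Pool.Agent.MP_807c24_nt.Z23 (Np rg Np_monic Np_natDegree card_rg Np_add)
open Pool.Agent.MP_807c24_nt.Z23.SmallP (zeros_ge poles_le sum_lin)

namespace SmallP

theorem od_ge (L i j : ℕ) {q : ℕ} (hq : 0 < q) (c : ℤ) :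
    ((i : ℝ) + j - 2 * (28 * L + 2)) * (1 / q) - 7 ≤
      (od (Zm L + (rg i + rg j)) (Icc 1 (40 * L + 2)) q c : ℤ) := by
  have h1 := zeros_ge (8 * L) hq c
  have h2 := zeros_ge i hq c
  have h3 := zeros_ge j hq c
  have h4 := poles_le (40 * L + 2) hq c
  rw [od, Zm, Multiset.countP_add, Multiset.countP_add, Multiset.countP_nsmul]
  push_cast at h1 h4 ⊢
  linarith

end SmallP

open SmallP

theorem small (hl : LinkStmt) (he : EntryStmt) : SmallStmt := by
  intro p hp a b x L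
  have p1 : 1 < p := hp.out.one_lt
  have r1 : (1 : ℝ) < p := by exact_mod_cast p1
  have r0 : (0 : ℝ) < p := by linarith
  unfold fS
  set J := Nat.log p (48 * L + 2) with hJ
  have J1 : 48 * L + 2 < p ^ (J + 1) := Nat.lt_pow_succ_log_self p1 _
  have J2 : p ^ J ≤ 48 * L + 2 := Nat.pow_log_le_self p (by omega)
  have l0 : 0 ≤ Real.log p := Real.log_nonneg r1.le
  set σ : ℝ := ∑ e ∈ Icc 1 J, 1 / (p : ℝ) ^ e with hσ
  rw [Del, ← D57.gram ℚ _ (28 * L + 2) (fun i => Np (rg i))
    fun i => ⟨Np_monic _, by rw [Np_natDegree, card_rg]⟩]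
  refine (D57.detP p _ _
    (fun i => Real.exp ((9 * J / 2 + (28 * L + 2) * σ - (i : ℕ) * σ) * Real.log p))
    fun i j => ?_).trans ?_
  · rw [Matrix.of_apply, ← Np_add, hl, ← Np_add]
    refine (he p a b x _ _ J ⌈(((i : ℕ) : ℝ) + (j : ℕ) - 2 * (28 * L + 2)) * σ - 7 * J⌉
      (fun t ht => ?_) fun c _ => ?_).trans ?_
    · have := mem_Icc.1 ht
      omega
    · rw [Int.ceil_le, Int.cast_sum]
      refine le_trans (le_of_eq ?_)
        (sum_le_sum fun e _ => od_ge L i j (pow_pos hp.out.pos e) (-(c : ℤ)))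
      rw [sum_sub_distrib, ← mul_sum, sum_const, Nat.card_Icc, nsmul_eq_mul]
      push_cast
      rw [← hσ]
      ring
    · rw [← Real.exp_add, ← Real.rpow_intCast, Real.rpow_def_of_pos r0, mul_comm, ← add_mul]
      refine Real.exp_le_exp.2 (mul_le_mul_of_nonneg_right ?_ l0)
      have := Int.le_ceil ((((i : ℕ) : ℝ) + (j : ℕ) - 2 * (28 * L + 2)) * σ - 7 * J)
      push_cast
      linarith
  · simp only [← Real.exp_nat_mul]
    rw [← Real.exp_sum, Fin.sum_univ_eq_sum_range (fun i : ℕ => ((2 : ℕ) : ℝ) *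
      ((9 * J / 2 + (28 * L + 2) * σ - i * σ) * Real.log p))]
    refine Real.exp_le_exp.2 ?_
    rw [sum_congr rfl
      (g := fun i : ℕ => 2 * (9 * J / 2 + (28 * L + 2) * σ - i * σ) * Real.log p)
      fun i _ => by push_cast; ring, ← sum_mul, sum_lin]
    have a2 : J * Real.log p ≤ Real.log (48 * L + 2) := by
      rw [← Real.log_pow]
      exact Real.log_le_log (by positivity) (by exact_mod_cast J2)
    have a5 := mul_le_mul_of_nonneg_left a2 (show (0 : ℝ) ≤ 9 * (28 * L + 2) by positivity)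
    push_cast
    nlinarith

end Pool.Agent.MP_807c24_nt.Z34
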