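import Pool.Agent.MP_807c24_nt.Z34.Alg
import Pool.Agent.MP_807c24_nt.Z34.Entry
import Pool.Agent.MP_807c24_nt.Z34.Medium
import Pool.Agent.MP_807c24_nt.Z34.Small
import Pool.Agent.MP_807c24_nt.Z34.Large
import Pool.Agent.MP_807c24_nt.Z34.Nonzero
import Pool.Agent.MP_807c24_nt.Z34.Prime76
import Pool.Agent.MP_807c24_nt.Z34.Bound
import Pool.Agent.MP_807c24_nt.Z34.Phi
import Pool.Agent.MP_807c24_nt.Z34.Size
import Pool.Agent.MP_807c24_nt.Z34.Real
import Pool.Agent.MP_807c24_nt.Z34.Final
import Pool.Agent.MP_807c24_nt.Z23.Main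

/-! Assembly. -/

namespace Pool.Agent.MP_807c24_nt.Z34

theorem coreB : CoreStmt :=
  core (real (bound pf link) phi size) (small link entry) (medium link entry)
    (large link cancel entry) (nonzero link cancel resB entry) Prime76.primeSum

end Pool.Agent.MP_807c24_nt.Z34
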