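import Pool.Agent.MP_807c24_nt.Z23.Basic

/-!
Specification for: 1, zeta(3), zeta(4) are linearly independent over the rationals.

Assume `x = 2 a zeta(3) + 3 b zeta(4)` is an integer. The line integral `JJ a b` sends `1/(s+j)^2`
to `x - H2 j` and `1/(s+j)` to `a zeta(2) + b zeta(3) - Hh j`; the sum of the residues of a function
that decays like `s^(-2)` is zero. With `R = prod_{t<8L} (s-t)^3 / prod_{1<=j<=40L+2} (s+j)^2` the
Hankel determinant of size `28L+2` of the moments `Mu (R s^d)` is a rational number that is too small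
for its denominators, and it is not zero when `26L+1` is a large prime.
-/

namespace Pool.Agent.MP_807c24_nt.Z34

open Finset Filter Topology Polynomial
open Pool.Agent.MP_807c24_nt.H13 (zr pn)
open Pool.Agent.MP_807c24_nt.D57 (lam hank psi)
open Pool.Agent.MP_807c24_nt.Z23 (Hh Dp Np rg ln JJ)

noncomputable section

/-! ### The functional -/

/-- The harmonic part of a double pole. -/
def H2 (a b : ℤ) (j : ℕ) : ℚ :=
  ∑ u ∈ Ico 1 j, (2 * (a : ℚ) / (u : ℚ) ^ 3 + 3 * (b : ℚ) / (u : ℚ) ^ 4)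

/-- Coefficient of `1/(s+j)^2` in `N / (Dp S)^2`. -/
def ra (S : Finset ℕ) (N : ℚ[X]) (j : ℕ) : ℚ :=
  N.eval (-(j : ℚ)) / (Dp (S.erase j)).eval (-(j : ℚ)) ^ 2

/-- Coefficient of `1/(s+j)` in `N / (Dp S)^2`. -/
def rc (S : Finset ℕ) (N : ℚ[X]) (j : ℕ) : ℚ :=
  N.derivative.eval (-(j : ℚ)) / (Dp (S.erase j)).eval (-(j : ℚ)) ^ 2 -
    2 * N.eval (-(j : ℚ)) * (Dp (S.erase j)).derivative.eval (-(j : ℚ)) /
      (Dp (S.erase j)).eval (-(j : ℚ)) ^ 3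

/-- The functional at `N / (Dp S)^2`. -/
def Mu (a b x : ℤ) (S : Finset ℕ) (N : ℚ[X]) : ℚ :=
  ∑ j ∈ S, (ra S N j * (x - H2 a b j) - rc S N j * Hh a b j)

/-- The triple zeros. -/
def Zm (L : ℕ) : Multiset ℤ := 3 • rg (8 * L)

/-- The moments. -/
def mom (a b x : ℤ) (L d : ℕ) : ℚ := Mu a b x (Icc 1 (40 * L + 2)) (Np (Zm L) * X ^ d)

/-- The Hankel determinant. -/
def Del (a b x : ℤ) (L : ℕ) : ℚ := hank (mom a b x L) (28 * L + 2)

/-! ### Algebra -/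

/-- Partial fractions with double poles; the residues sum to zero. -/
def PfStmt : Prop :=
  ∀ (S : Finset ℕ) (N : ℚ[X]), N.natDegree + 2 ≤ 2 * S.card →
    N = ∑ j ∈ S, (C (ra S N j) + C (rc S N j) * (X + C (j : ℚ))) * Dp (S.erase j) ^ 2 ∧
      ∑ j ∈ S, rc S N j = 0

/-- The moment functional. -/
def LinkStmt : Prop :=
  ∀ (a b x : ℤ) (L : ℕ) (P : ℚ[X]),
    lam (mom a b x L) P = Mu a b x (Icc 1 (40 * L + 2)) (Np (Zm L) * P)

/-- Cancellation of poles. -/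
def CancelStmt : Prop :=
  ∀ (a b x : ℤ) (S T : Finset ℕ) (N : ℚ[X]), T ⊆ S →
    Mu a b x S (Dp T ^ 2 * N) = Mu a b x (S \ T) N

/-! ### One entry, p-adically -/

/-- Zeros minus poles (counted twice) in the class of `c` modulo `q`. -/
def od (M : Multiset ℤ) (S : Finset ℕ) (q : ℕ) (c : ℤ) : ℤ :=
  (M.countP (fun t => (q : ℤ) ∣ t - c) : ℤ) -
    2 * ((S.filter fun j : ℕ => (q : ℤ) ∣ (j : ℤ) + c).card : ℤ)

/-- Size of the coefficients. -/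
def ResStmt : Prop :=
  ∀ (p : ℕ) [Fact p.Prime] (S : Finset ℕ) (M : Multiset ℤ) (A j : ℕ), j ∈ S →
    (∀ i ∈ S, 1 ≤ i ∧ i ≤ p ^ (A + 1)) →
    pn p (ra S (Np M) j) ≤ (p : ℝ) ^ (-((∑ e ∈ Icc 1 A, od M S (p ^ e) (-(j : ℤ))) + 2 * A)) ∧
      pn p (rc S (Np M) j) ≤ (p : ℝ) ^ (-((∑ e ∈ Icc 1 A, od M S (p ^ e) (-(j : ℤ))) + A))

/-- Size of the functional (for `A = 0` and `y = 0`: integrality). -/
def EntryStmt : Prop :=
  ∀ (p : ℕ) [Fact p.Prime] (a b x : ℤ) (S : Finset ℕ) (M : Multiset ℤ) (A : ℕ) (y : ℤ),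
    (∀ i ∈ S, 1 ≤ i ∧ i ≤ p ^ (A + 1)) →
    (∀ j ∈ S, y ≤ ∑ e ∈ Icc 1 A, od M S (p ^ e) (-(j : ℤ))) →
    pn p (Mu a b x S (Np M)) ≤ (p : ℝ) ^ (2 * (A : ℤ) - y)

/-! ### The determinant, p-adically -/

/-- Autocorrelation of the multiplicities summed over the positive multiples of `q`. -/
def Phi (L q : ℕ) : ℤ := 10 * psi (40 * L + 2) q + 15 * psi (8 * L) q - 6 * psi (48 * L + 2) q

/-- Sum of the squares over the classes. -/
def SqStmt : Prop :=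
  ∀ L q : ℕ, 0 < q →
    ∑ c ∈ range q, od (Zm L) (Icc 1 (40 * L + 2)) q c ^ 2 = 232 * L + 8 + 2 * Phi L q

/-- Bound for small primes. -/
def fS (L p : ℕ) : ℝ :=
  9 * (28 * L + 2) * Real.log (48 * L + 2) + (28 * L + 2) * (28 * L + 3) *
    (∑ e ∈ Icc 1 (Nat.log p (48 * L + 2)), 1 / (p : ℝ) ^ e) * Real.log p

/-- Bound for medium primes. -/
def fM (L p : ℕ) : ℝ := (142 * L + 8 + (Phi L p : ℝ) / 2) * Real.log p

/-- Bound for large primes. -/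
def fL (L p : ℕ) : ℝ :=
  (10 * ((40 * L + 2 - p : ℕ) : ℝ) - 8 * ((26 * L + 1 - p : ℕ) : ℝ)) * Real.log p

/-- Every prime. -/
def SmallStmt : Prop :=
  ∀ (p : ℕ) [Fact p.Prime] (a b x : ℤ) (L : ℕ), pn p (Del a b x L) ≤ Real.exp (fS L p)

/-- Medium primes. -/
def MediumStmt : Prop :=
  ∀ (p : ℕ) [Fact p.Prime] (a b x : ℤ) (L : ℕ), 40 * L + 2 ≤ p ^ 2 →
    pn p (Del a b x L) ≤ Real.exp (fM L p)

/-- Large primes. -/
def LargeStmt : Prop :=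
  ∀ (p : ℕ) [Fact p.Prime] (a b x : ℤ) (L : ℕ), 20 * L + 1 ≤ p →
    pn p (Del a b x L) ≤ Real.exp (fL L p)

/-- A determinant with one dominant permutation is not zero. -/
def DomStmt : Prop :=
  ∀ (p : ℕ) [Fact p.Prime] (ι : Type) [Fintype ι] [DecidableEq ι] (G : Matrix ι ι ℚ)
    (σ : Equiv.Perm ι) (r s : ι → ℝ), (∀ i, 0 < r i) → (∀ i, 0 < s i) →
    (∀ i, pn p (G i (σ i)) = r i * s (σ i)) → (∀ i j, j ≠ σ i → pn p (G i j) < r i * s j) →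
    G.det ≠ 0

/-- The prime that shows that the determinant is not zero. -/
def NonzeroStmt : Prop :=
  ∀ (p : ℕ) [Fact p.Prime] (a b x : ℤ) (L : ℕ), p = 26 * L + 1 → ¬(p : ℤ) ∣ b → Del a b x L ≠ 0

/-- The bound used for each prime. -/
def ff (L p : ℕ) : ℝ :=
  if p ^ 2 < 48 * L + 2 then fS L p else if p ≤ 23 * L then fM L p else fL L p

/-- Sum over the primes. -/
def PrimeStmt : Prop :=
  ∀ᶠ L : ℕ in atTop, ∑ p ∈ (range (48 * L + 2 + 1)).filter Nat.Prime, ff L p ≤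
    784 * (L : ℝ) ^ 2 * Real.log L + 5620 * (L : ℝ) ^ 2

/-! ### The real side -/

/-- Values on double poles. -/
def ValStmt : Prop :=
  ∀ (a b : ℤ) (j : ℕ), 1 ≤ j →
    JJ a b 0 (fun s => (s + j)⁻¹ ^ 2) = ((2 * a * zr 3 + 3 * b * zr 4 - H2 a b j : ℝ) : ℂ)

/-- The rational function `R`. -/
def Rr (L : ℕ) (s : ℂ) : ℂ :=
  (∏ t ∈ range (8 * L), (s - t) ^ 3) / ∏ j ∈ Icc 1 (40 * L + 2), (s + j) ^ 2

/-- The functional is bounded by the size of the function on the line. -/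
def BoundStmt : Prop :=
  ∀ a b x : ℤ, (x : ℝ) = 2 * a * zr 3 + 3 * b * zr 4 →
    ∃ C : ℝ, 0 < C ∧ ∀ (L : ℕ) (P : ℚ[X]) (B : ℝ), P.natDegree ≤ 56 * L + 2 →
      (∀ y : ℝ, ‖Rr L (ln (8 * L) y) * aeval (ln (8 * L) y) P‖ ≤ B * Real.exp (6281 / 1000 * |y|)) →
      |((lam (mom a b x L) P : ℚ) : ℝ)| ≤ C * B

/-- Heights (in units `L / 64`) of the roots of the basis polynomials. -/
def ro (s : ℕ) : ℕ := [13, 116, 177, 266, 61, 378, 464, 274, 565, 133, 699, 412, 725, 618].getD s 0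

/-- Exponents in the numerical inequality. -/
def be (s : ℕ) : ℕ :=
  [456, 463, 459, 452, 442, 431, 423, 410, 397, 386, 369, 356, 341, 327, 308].getD s 0

/-- Scaled bound for `|R|^2`. -/
def WW (η : ℝ) : ℝ :=
  (∏ a ∈ range 8, ((15 / 2 - (a : ℝ)) ^ 2 + η ^ 2 + 1 / 4) ^ 3) /
    ∏ a ∈ range 40, ((17 / 2 + (a : ℝ)) ^ 2 + η ^ 2 - 1 / 4) ^ 2

/-- The numerical inequality on the line. -/
def PhiStmt : Prop :=
  ∀ s : ℕ, s ≤ 14 → ∀ η : ℝ, 0 ≤ η →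
    WW η * ∏ s' ∈ range s, (((ro s' : ℝ) / 64) ^ 2 - η ^ 2) ^ 4 ≤
      Real.exp (-(be s : ℝ) + 314 / 25 * η)

/-- Size of `R` on the line (with two spare powers of `1 + |y|`). -/
def SizeStmt : Prop :=
  ∀ (L : ℕ) (y : ℝ), 1 ≤ L →
    (‖Rr L (ln (8 * L) y)‖ * (1 + |y|) ^ 2) ^ 2 ≤
      2000 ^ 4 * Real.exp (|y| / 500) * WW (|y| / L) ^ L / (L : ℝ) ^ (112 * L)

/-- The determinant is small. -/
def RealStmt : Prop :=
  ∀ a b x : ℤ, (x : ℝ) = 2 * a * zr 3 + 3 * b * zr 4 →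
    ∃ C : ℝ, ∀ L : ℕ, 1 ≤ L → |((Del a b x L : ℚ) : ℝ)| ≤
      Real.exp (L * (C + 30 * Real.log L) - 784 * (L : ℝ) ^ 2 * Real.log L - 5638 * (L : ℝ) ^ 2)

/-- The theorem in the case `b ≠ 0`. -/
def CoreStmt : Prop := ∀ a b x : ℤ, b ≠ 0 → (x : ℝ) ≠ 2 * a * zr 3 + 3 * b * zr 4

end

end Pool.Agent.MP_807c24_nt.Z34
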